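import Mathlib
import Pool.Agent.U172.FM.Comp2
import Pool.Agent.U172.FM.Cyclo

/-!
# Representations which agree with an automorphic representation at one place above `p`

Let `k` be a number field, `p` a prime number, `S` a set of prime numbers (containing `p`), and `X` a
subgroup of the absolute Galois group of `ℚ` which detects the `p`-extensions of `k` unramified outside
`S` (every cyclic extension of degree `p` of `k`, unramified at the finite primes which do not lie above
`S`, on which `X ∩ G_k` acts trivially, is trivial). Examples: the inertia group at a prime `P` above `p`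
of the ring of all algebraic integers, for `S = {p}` and `k = ℚ(ζ_p)`, `p` a regular prime (for instance
`p = 3, 5, 7`); the decomposition group at `P`, for `k = ℚ`, if `S` consists of `p`, of a prime `q` that
is `1` modulo `p` such that `p` is not a `p`-th power modulo `q`, and of primes that are not `1` modulo
`p`.

Let `k / F` be an abelian extension of exponent dividing `p - 1`, let `F ⊆ K ⊆ M`, where `M / k` is a
finite Galois extension of degree a power of `p`, unramified outside `S` (for example all the CM fields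
`ℚ(ζ_(p ^ r))`, and all the other CM fields `K` of this kind), let `A` be a Noetherian local ring of
residue characteristic `p`, complete or not, with the adic topology (for example the ring of integers
of a finite extension of `ℚ_p`), and let `R : G_K → GL_m(A)` and `R' : G_K → GL_n(A)` be continuous
representations, unramified outside `S`, and residually unipotent on `G_k ∩ G_K`. For example
`R' = ρ_π` for an automorphic representation `π`. Let `T` be a subgroup of finite index of `X ∩ G_K`, for
example an open subgroup of the inertia group at one place of `K` above `p`.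

**Theorem.** (1) There is a finite Galois extension `L / K` with a solvable Galois group (an extension
of an abelian group by a `p`-group), such that for all fields `E` with a homomorphism `A → E` all
`E`-linear maps from `E ^ m` to `E ^ n` which commute with `T` commute with `G_L`.
(2) If `R` is irreducible over `E`, and if there is a nonzero `T`-equivariant map from `R` to `R'`, then
`R` is contained in `Hom (N, R')` for a representation `N` of `Gal (L / K)`.
(3) Let `E` be algebraically closed, `m = n`, and let `R` be irreducible on all open subgroups of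
`G_K`. If there is a nonzero `T`-equivariant map from `R` to `R'`, it is an isomorphism from `R` to
`R' ⊗ η` for a character `η` of `Gal (L / K)`.
(4) Let `c` be an automorphism of the algebraic closure which normalizes `G_K` and `G_k` (for example the
complex conjugation) and `Ψ` a character of `G_K`. The bilinear forms `b` on `R` with
`b (R (σ) x, R (c σ c⁻¹) y) = Ψ (σ) b (x, y)` for the elements `σ` of `T` have this property for all
elements of `G_L`. If `E` is algebraically closed and `R` is irreducible on all open subgroups of `G_K`,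
and if there is such a form `b ≠ 0` for `T`, it is nondegenerate, and the equation holds for all `σ` in
`G_K` with `Ψ` replaced by `η Ψ`, where `η` is a character of `Gal (L / K)`: `R` is polarized.

So for these fields, and for the representations which are irreducible on open subgroups, the
automorphy of `R` is a question about its restriction to any open subgroup of one inertia group above
`p`: if this restriction is isomorphic to the one of `ρ_π` for some `π`, then `R` is isomorphic to the
restriction of `ρ_π` over the solvable extension `L` of `K`, and to a twist of `ρ_π` over `K`, so it is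
automorphic; and `R` is polarized if it is polarized on this open subgroup, up to a character of
finite order. (This deduction is not part of the formal proof.)

Proof. The image of `X ∩ G_M` in the direct sum of `R` and `R'` is dense in the image of `G_M`, by the
theorem of Burnside. So the closure of the image of `T` is open. The graph of an intertwiner of `T` is
stable under this closure. Parts (2), (3) and (4) follow by Schur's lemma.
-/

set_option autoImplicit false
set_option linter.unusedSectionVars false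

namespace Pool.Agent.Results.MP_adf543_nt.AgreementAtOnePlace

open NumberField IsLocalRing Matrix
open scoped Pointwise

/-- an algebraic closure of `ℚ` -/
abbrev QBar : Type := AlgebraicClosure ℚ

/-- the absolute Galois group of a field `F`, with the Krull topology -/
abbrev Galois (F : Type) [Field F] : Type := Gal(AlgebraicClosure F/F)

/-- The absolute Galois group of `ℚ`. The number fields in `QBar` correspond to the open subgroups,
their absolute Galois groups. -/
abbrev AbsGal : Type := Galois ℚ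

/-- the ring of all algebraic integers -/
abbrev ZBar : Type := 𝓞 QBar

/-- the inertia group at `P`: all `τ` with `τ x - x ∈ P` for all `x` -/
noncomputable abbrev inertia (P : Ideal ZBar) : Subgroup AbsGal := P.inertia AbsGal

/-- the decomposition group at `P`: the stabilizer of `P` -/
noncomputable abbrev decomposition (P : Ideal ZBar) : Subgroup AbsGal := MulAction.stabilizer AbsGal P

/-- the inertia elements at the primes which do not lie above a member of `S` -/
def OuterInertia (S : Set ℕ) : Set AbsGal :=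
  {τ | ∃ P : Ideal ZBar, P.IsMaximal ∧ (∀ l ∈ S, (l : ZBar) ∉ P) ∧ τ ∈ inertia P}

/-- `C` and `U` are the absolute Galois groups of `k` and of a finite Galois extension `M / k` of
degree a power of `p`, which is unramified outside `S`. -/
structure PExtension (p : ℕ) (S : Set ℕ) (C U : Subgroup AbsGal) : Prop where
  le : U ≤ C
  isOpen : IsOpen (U : Set AbsGal)
  normal : ∀ c ∈ C, ∀ u ∈ U, c * u * c⁻¹ ∈ U
  pow : ∀ c ∈ C, ∃ a : ℕ, c ^ p ^ a ∈ U
  unramified : ∀ τ ∈ C, τ ∈ OuterInertia S → τ ∈ U

/-- `B`, `C` and `H` are the absolute Galois groups of number fields `F`, `k` and `K`, such that `k / F`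
is abelian of exponent dividing `p - 1` and `F ⊆ K ⊆ M` for some finite Galois extension `M / k` of
degree a power of `p`, unramified outside `S`. -/
structure Setting (p : ℕ) (S : Set ℕ) (B C H : Subgroup AbsGal) : Prop where
  le : C ≤ B
  normal : ∀ b ∈ B, ∀ c ∈ C, b * c * b⁻¹ ∈ C
  abelian : ∀ a ∈ B, ∀ b ∈ B, a * b * a⁻¹ * b⁻¹ ∈ C
  exponent : ∀ b ∈ B, b ^ (p - 1) ∈ C
  between : H ≤ B ∧ ∃ U, PExtension p S C U ∧ U ≤ H

/-- `X` detects the `p`-extensions of `k` unramified outside `S`, where `C` is the absolute Galois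
group of `k`: every continuous homomorphism from `C` to `ℤ/p` which is unramified outside `S` and
trivial on `X ∩ C` is trivial. -/
def Detects (p : ℕ) (S : Set ℕ) (C X : Subgroup AbsGal) : Prop :=
  ∀ f : C →* Multiplicative (ZMod p), IsOpen (f.ker : Set C) →
    (∀ τ : C, (τ : AbsGal) ∈ OuterInertia S → f τ = 1) →
    (∀ τ : C, (τ : AbsGal) ∈ X → f τ = 1) → ∀ g, f g = 1

/-- `T` is a subgroup of finite index of `X`. -/
def FinIndex (T X : Subgroup AbsGal) : Prop := T ≤ X ∧ T.relIndex X ≠ 0

section rep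

variable {H : Subgroup AbsGal} {A : Type} [CommRing A] {n : ℕ}

/-- `ρ` is continuous, unramified outside `S` and residually unipotent on `C`. -/
structure Admissible [IsLocalRing A] [TopologicalSpace A] (S : Set ℕ) (C : Subgroup AbsGal)
    (ρ : H →* GL (Fin n) A) : Prop where
  cont : Continuous ρ
  unramified : ∀ σ : H, (σ : AbsGal) ∈ OuterInertia S → ρ σ = 1
  unipotent : ∀ σ : H, (σ : AbsGal) ∈ C → ∃ m : ℕ, ∀ i j,
    (((ρ σ : Matrix (Fin n) (Fin n) A) - 1) ^ m) i j ∈ maximalIdeal A

/-- The character `χ` is continuous, unramified outside `S` and residually trivial on `C`. -/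
structure AdmissibleChar [IsLocalRing A] [TopologicalSpace A] (S : Set ℕ)
    (C : Subgroup AbsGal) (χ : H →* Aˣ) : Prop where
  cont : Continuous χ
  unramified : ∀ σ : H, (σ : AbsGal) ∈ OuterInertia S → χ σ = 1
  residual : ∀ σ : H, (σ : AbsGal) ∈ C → (χ σ : A) - 1 ∈ maximalIdeal A

variable {E : Type} [Field E] [Algebra A E]

/-- the action of `σ` on `V = E ^ n` -/
noncomputable def act (ρ : H →* GL (Fin n) A) (σ : H) (v : Fin n → E) : Fin n → E :=
  ((ρ σ : Matrix (Fin n) (Fin n) A).map (algebraMap A E)) *ᵥ v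

/-- the subspace `W` of `V` is stable under the elements of `T` -/
def Stable (ρ : H →* GL (Fin n) A) (T : Subgroup AbsGal) (W : Submodule E (Fin n → E)) : Prop :=
  ∀ σ : H, (σ : AbsGal) ∈ T → ∀ w ∈ W, act ρ σ w ∈ W

/-- `V` is irreducible -/
def Irreducible (E : Type) [Field E] [Algebra A E] (ρ : H →* GL (Fin n) A) : Prop :=
  n ≠ 0 ∧ ∀ W : Submodule E (Fin n → E), Stable ρ H W → W = ⊥ ∨ W = ⊤


/-- `V` is irreducible on all open subgroups of `H` -/
def StronglyIrreducible (E : Type) [Field E] [Algebra A E] (ρ : H →* GL (Fin n) A) : Prop :=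
  n ≠ 0 ∧ ∀ L ≤ H, IsOpen (L : Set AbsGal) →
    ∀ W : Submodule E (Fin n → E), Stable ρ L W → W = ⊥ ∨ W = ⊤

end rep

/-- `L` is an open normal subgroup of `H`, and all elements of `C ∩ H` have a power of order `p ^ a` in
`L`. If `C` contains the commutators of the elements of `H`, then `H / L` is a finite solvable group:
an extension of an abelian group by a `p`-group. -/
structure Layer (p : ℕ) (C H L : Subgroup AbsGal) : Prop where
  le : L ≤ H
  isOpen : IsOpen (L : Set AbsGal)
  normal : ∀ h ∈ H, ∀ l ∈ L, h * l * h⁻¹ ∈ L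
  pow : ∀ c ∈ C, c ∈ H → ∃ a : ℕ, c ^ p ^ a ∈ L

section pairs

/-- linear maps from `E ^ m` to `E ^ n` -/
abbrev LinMap (E : Type) [Field E] (m n : ℕ) : Type := (Fin m → E) →ₗ[E] (Fin n → E)

/-- linear maps from `E ^ m` to the linear maps from `N` to `E ^ n` -/
abbrev HomMap (E : Type) [Field E] (m n : ℕ) (N : Type) [AddCommGroup N] [Module E N] : Type :=
  (Fin m → E) →ₗ[E] (N →ₗ[E] (Fin n → E))

/-- bilinear forms on `E ^ n` -/
abbrev Form (E : Type) [Field E] (n : ℕ) : Type := (Fin n → E) →ₗ[E] (Fin n → E) →ₗ[E] E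

/-- the value of the form `b` -/
noncomputable def val {E : Type} [Field E] {n : ℕ} (b : Form E n) (x y : Fin n → E) : E := b x y

/-- `b` is nondegenerate -/
def Nondegenerate {E : Type} [Field E] {n : ℕ} (b : Form E n) : Prop :=
  ∀ x, (∀ y, val b x y = 0) → x = 0

variable {H : Subgroup AbsGal} {A : Type} [CommRing A] {m n : ℕ}

section field

variable {E : Type} [Field E]

/-- the character `η` of `H` is trivial on `L` -/
def TrivialChar (L : Subgroup AbsGal) (η : H →* Eˣ) : Prop :=
  ∀ σ : H, (σ : AbsGal) ∈ L → η σ = 1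

/-- the representation `τ` of `H` is trivial on `L` -/
def TrivialRep {N : Type} [AddCommGroup N] [Module E N] (L : Subgroup AbsGal)
    (τ : Representation E H N) : Prop :=
  ∀ σ : H, (σ : AbsGal) ∈ L → τ σ = 1

variable [Algebra A E]

/-- The linear map `f` commutes with the elements of `T`. -/
def Commutes (ρ : H →* GL (Fin m) A) (ρ' : H →* GL (Fin n) A) (T : Subgroup AbsGal)
    (f : LinMap E m n) : Prop :=
  ∀ σ : H, (σ : AbsGal) ∈ T → ∀ v, f (act ρ σ v) = act ρ' σ (f v)

/-- The linear map `f` commutes with `H` up to the character `η`. -/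
def CommutesUpTo (ρ ρ' : H →* GL (Fin n) A) (η : H →* Eˣ) (f : LinMap E n n) : Prop :=
  ∀ σ v, f (act ρ σ v) = (η σ : E) • act ρ' σ (f v)

/-- The linear map `j` from `V` to `Hom (N, V')` is compatible with the actions of `H`. -/
def Compatible {N : Type} [AddCommGroup N] [Module E N] (ρ : H →* GL (Fin m) A)
    (ρ' : H →* GL (Fin n) A) (τ : Representation E H N) (j : HomMap E m n N) : Prop :=
  ∀ σ v x, j (act ρ σ v) (τ σ x) = act ρ' σ (j v x)

/-- `b (ρ σ x, ρ (c σ c⁻¹) y) = Φ σ b (x, y)` for the elements `σ` of `T`. -/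
def Pairs (ρ : H →* GL (Fin n) A) (c : AbsGal) (Φ : H → E) (T : Subgroup AbsGal) (b : Form E n) :
    Prop :=
  ∀ σ σ' : H, (σ : AbsGal) ∈ T → (σ' : AbsGal) = c * σ * c⁻¹ → ∀ x y,
    val b (act ρ σ x) (act ρ σ' y) = Φ σ * val b x y

end field

/-- the values of the character `Ψ` in `E` -/
noncomputable def values (E : Type) [Field E] [Algebra A E] (Ψ : H →* Aˣ) (σ : H) : E :=
  algebraMap A E (Ψ σ : A)

/-- the values of the character `η Ψ` -/
noncomputable def twisted {E : Type} [Field E] [Algebra A E] (η : H →* Eˣ) (Ψ : H →* Aˣ) (σ : H) :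
    E := (η σ : E) * values E Ψ σ

/-- `V` is contained in `Hom (N, V')` for a finite-dimensional representation `τ` of `H` on a vector
space `N` over `E`, which is trivial on `L`: there is an injective linear map `j` from `V` to
`Hom (N, V')` which is compatible with the actions. -/
def InTwist (E : Type) [Field E] [Algebra A E] (ρ : H →* GL (Fin m) A) (ρ' : H →* GL (Fin n) A)
    (L : Subgroup AbsGal) : Prop :=
  ∃ (N : Type) (_ : AddCommGroup N) (_ : Module E N) (τ : Representation E H N)
    (j : HomMap E m n N), FiniteDimensional E N ∧ TrivialRep L τ ∧ Function.Injective j ∧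
    Compatible ρ ρ' τ j

/-- (1) All linear maps which commute with `T` commute with `L`. -/
def Intertwiners (ρ : H →* GL (Fin m) A) (ρ' : H →* GL (Fin n) A) (T L : Subgroup AbsGal) : Prop :=
  ∀ (E : Type) [Field E] [Algebra A E] (f : LinMap E m n),
    Commutes ρ ρ' T f → Commutes ρ ρ' L f

/-- (2) If `V` is irreducible, and if there is a nonzero linear map from `V` to `V'` which commutes
with `T`, then `V` is contained in a twist of `V'` by a representation which is trivial on `L`. -/
def Constituents (ρ : H →* GL (Fin m) A) (ρ' : H →* GL (Fin n) A) (T L : Subgroup AbsGal) : Prop :=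
  ∀ (E : Type) [Field E] [Algebra A E], Irreducible E ρ →
    ∀ f : LinMap E m n, f ≠ 0 → Commutes ρ ρ' T f → InTwist E ρ ρ' L

/-- (3) If `V` is irreducible on all open subgroups of `H`, every nonzero linear map from `V` to `V'`
which commutes with `T` is an isomorphism from `V` to `V' ⊗ η`, where the character `η` of `H` is
trivial on `L`. -/
def Twists (ρ ρ' : H →* GL (Fin n) A) (T L : Subgroup AbsGal) : Prop :=
  ∀ (E : Type) [Field E] [Algebra A E] [IsAlgClosed E], StronglyIrreducible E ρ →
    ∀ f : LinMap E n n, f ≠ 0 → Commutes ρ ρ' T f → Function.Bijective f ∧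
      ∃ η : H →* Eˣ, TrivialChar L η ∧ CommutesUpTo ρ ρ' η f

/-- (4a) All bilinear forms `b` with `Pairs` for `T` and the character `Ψ` have this property for
`L`. -/
def FormsExtend (ρ : H →* GL (Fin n) A) (c : AbsGal) (Ψ : H →* Aˣ) (T L : Subgroup AbsGal) : Prop :=
  ∀ (E : Type) [Field E] [Algebra A E] (b : Form E n),
    Pairs ρ c (values E Ψ) T b → Pairs ρ c (values E Ψ) L b

/-- (4b) If `V` is irreducible on all open subgroups of `H` and `b ≠ 0`, then `b` is nondegenerate, and
the equation holds for all elements of `H` with `Ψ` replaced by `η Ψ` for a character `η` which is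
trivial on `L`. -/
def Polarizations (ρ : H →* GL (Fin n) A) (c : AbsGal) (Ψ : H →* Aˣ) (T L : Subgroup AbsGal) :
    Prop :=
  ∀ (E : Type) [Field E] [Algebra A E] [IsAlgClosed E], StronglyIrreducible E ρ →
    ∀ b : Form E n, b ≠ 0 → Pairs ρ c (values E Ψ) T b → Nondegenerate b ∧
      ∃ η : H →* Eˣ, TrivialChar L η ∧ Pairs ρ c (twisted η Ψ) H b

end pairs

/-- `c` normalizes `H` (the inclusion that is used) -/
def Normalizes (c : AbsGal) (H : Subgroup AbsGal) : Prop := ∀ h ∈ H, c * h * c⁻¹ ∈ H

/-- no cyclic extension of degree `p` of `k` is unramified at all finite primes -/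
def NoExtension (p : ℕ) (C : Subgroup AbsGal) : Prop := Detects p ∅ C ⊥

/-- `k` has only one prime above `p` -/
def OnePrimeAbove (p : ℕ) (C : Subgroup AbsGal) : Prop :=
  ∀ P P' : Ideal ZBar, P.IsMaximal → P'.IsMaximal → (p : ZBar) ∈ P → (p : ZBar) ∈ P' →
    ∃ c ∈ C, c • P = P'

/-- The absolute Galois group of `ℚ(ζ_p)`: all `τ` which fix the roots of unity of order `p`. -/
def cyclotomic (p : ℕ) : Subgroup AbsGal where
  carrier := {τ | ∀ z : QBar, z ^ p = 1 → τ z = z}
  mul_mem' := fun {a b} ha hb z hz => by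
    show a (b z) = z
    rw [hb z hz, ha z hz]
  one_mem' := fun z _ => rfl
  inv_mem' := fun {a} ha z hz => by
    apply a.injective
    rw [ha z hz]
    show (a * a⁻¹) z = z
    rw [mul_inv_cancel]
    rfl

section principle

variable (p : ℕ) (S : Set ℕ) (C H : Subgroup AbsGal) (A : Type) [CommRing A] [IsLocalRing A]
  [TopologicalSpace A] (T : Subgroup AbsGal)

/-- (1) and (2) for all pairs of representations of `H`, and a layer `L` -/
def ForPairs : Prop :=
  ∀ (m n : ℕ) (ρ : H →* GL (Fin m) A) (ρ' : H →* GL (Fin n) A), Admissible S C ρ →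
    Admissible S C ρ' → ∃ L, Layer p C H L ∧ Intertwiners ρ ρ' T L ∧ Constituents ρ ρ' T L

/-- (3) for all pairs of representations of `H` of the same rank, and a layer `L` -/
def ForEqualRanks : Prop :=
  ∀ (n : ℕ) (ρ ρ' : H →* GL (Fin n) A), Admissible S C ρ → Admissible S C ρ' →
    ∃ L, Layer p C H L ∧ Twists ρ ρ' T L

/-- (4) for all representations and characters of `H`, all `c` which normalize `H` and `C`, and a layer
`L` -/
def ForPolarizations : Prop :=
  ∀ (n : ℕ) (ρ : H →* GL (Fin n) A), Admissible S C ρ → ∀ c, Normalizes c H → Normalizes c C →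
    ∀ Ψ : H →* Aˣ, AdmissibleChar S C Ψ →
      ∃ L, Layer p C H L ∧ FormsExtend ρ c Ψ T L ∧ Polarizations ρ c Ψ T L

/-- (1), (2), (3) and (4) hold for all detecting `X` and all subgroups `T` of finite index of
`X ∩ H`. -/
def Principle : Prop :=
  ∀ X, Detects p S C X → ∀ T, FinIndex T (X ⊓ H) →
    ForPairs p S C H A T ∧ ForEqualRanks p S C H A T ∧ ForPolarizations p S C H A T

end principle

/-- inertia groups at `p`, for `k = ℚ(ζ_p)`, `p` regular, and `F = ℚ` -/
def InertiaExample : Prop :=
  ∀ p : ℕ, p.Prime → (p ≤ 7 ∨ NoExtension p (cyclotomic p)) →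
    (∀ P : Ideal ZBar, P.IsMaximal → (p : ZBar) ∈ P → Detects p {p} (cyclotomic p) (inertia P)) ∧
    ∀ H, (∃ U, PExtension p {p} (cyclotomic p) U ∧ U ≤ H) → Setting p {p} ⊤ (cyclotomic p) H

/-- fields `k` with one prime above `p` -/
def OnePrimeExample : Prop :=
  ∀ (p : ℕ) (C : Subgroup AbsGal), OnePrimeAbove p C →
    ∀ P : Ideal ZBar, P.IsMaximal → (p : ZBar) ∈ P → ∀ X, inertia P ≤ X → Detects p ∅ C X →
      Detects p {p} C X

/-- decomposition groups at `p`, for `k = ℚ` -/
def DecompositionExample : Prop :=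
  ∀ p q : ℕ, p.Prime → q.Prime → p ∣ q - 1 → (p : ZMod q) ^ ((q - 1) / p) ≠ 1 →
    ∀ S : Set ℕ, (∀ l ∈ S, l.Prime ∧ (p ∣ l - 1 → l = q)) →
    ∀ P : Ideal ZBar, P.IsMaximal → (p : ZBar) ∈ P → Detects p S ⊤ (decomposition P)

/-! ### Translation -/

section translation

variable {p : ℕ} {S : Set ℕ} {B C H : Subgroup AbsGal}

theorem pext (h : ∃ U, PExtension p S C U ∧ U ≤ H) :
    ∃ U : Subgroup AbsGal, Pool.Agent.U172.FM.PExt p (Pool.Agent.U172.FM.outer S) C U ∧ U ≤ H := by
  obtain ⟨U, hU, hUH⟩ := h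
  exact ⟨U, ⟨hU.le, hU.isOpen, hU.normal, hU.pow, fun τ h1 h2 => hU.unramified τ h1 h2⟩, hUH⟩

theorem relIndex_sub {T X : Subgroup AbsGal} (h : FinIndex T (X ⊓ H)) (Q : Subgroup H)
    (hT : T.subgroupOf H ≤ Q) : Q.relIndex (X.subgroupOf H) ≠ 0 := by
  obtain ⟨h1, h2⟩ := h
  have h4 : (T.subgroupOf H).relIndex (X.subgroupOf H) ≠ 0 := by
    rw [← Subgroup.inf_subgroupOf_right X H, Subgroup.relIndex_subgroupOf inf_le_right]
    exact h2
  intro h5
  exact h4 (Subgroup.relIndex_eq_zero_of_le_left hT h5)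

theorem finiteIndex_trans {T X L : Subgroup AbsGal} (hLH : L ≤ H) (hL : L.relIndex H ≠ 0)
    (h : FinIndex T (X ⊓ L)) : FinIndex T (X ⊓ H) := by
  obtain ⟨h1, h2⟩ := h
  refine ⟨h1.trans (inf_le_inf_left _ hLH), ?_⟩
  have h3 : L.relIndex (X ⊓ H) ≠ 0 := fun h => hL (Subgroup.relIndex_eq_zero_of_le_right inf_le_right h)
  have h4 : X.relIndex (X ⊓ H) ≠ 0 := by
    rw [Subgroup.relIndex_eq_one.2 inf_le_left]
    exact one_ne_zero
  exact Subgroup.relIndex_ne_zero_trans h2 (Subgroup.relIndex_inf_ne_zero h4 h3)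

theorem cyclotomic_eq (p : ℕ) : cyclotomic p = Pool.Agent.W569.UF.HH p := by
  ext τ
  rw [Pool.Agent.W569.UF.mem_HH]
  rfl

theorem cyclotomic_setting (hp : p.Prime)
    (h : ∃ U, PExtension p {p} (cyclotomic p) U ∧ U ≤ H) : Setting p {p} ⊤ (cyclotomic p) H where
  le := le_top
  normal := fun b _ c hc => by
    rw [cyclotomic_eq] at hc ⊢
    exact (Pool.Agent.W569.UF.normal_HH p).conj_mem c hc b
  abelian := fun a _ b _ => by
    rw [cyclotomic_eq]
    exact Pool.Agent.U172.FM.comm_HH hp a b
  exponent := fun b _ => by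
    rw [cyclotomic_eq]
    exact Pool.Agent.U172.FM.pow_HH hp b
  between := ⟨le_top, h⟩

theorem translate {L : Subgroup H} : (L.map H.subtype).subgroupOf H = L :=
  Subgroup.comap_map_eq_self_of_injective H.subtype_injective L

theorem isOpen_translate (hH : IsOpen (H : Set AbsGal)) {L : Subgroup H} (hL : IsOpen (L : Set H)) :
    IsOpen ((L.map H.subtype : Subgroup AbsGal) : Set AbsGal) := by
  rw [Subgroup.coe_map]
  exact hH.isOpenMap_subtype_val _ hL

section compare

open Pool.Agent.U172.FM (cong cong_open cong_pow cong_normal tw tw_cont tw_res tw_act ctr ctr_cont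
  ctr_res ctr_val dsum dsum_cont dsum_res actHom)

variable {A : Type} [CommRing A] [IsLocalRing A] [IsNoetherianRing A] {m n : ℕ}

/-- the layer of a congruence subgroup -/
theorem layer [Fact p.Prime] [TopologicalSpace A] (hHo : IsOpen (H : Set AbsGal))
    (hA : IsAdic (maximalIdeal A)) (hpA : (p : A) ∈ maximalIdeal A) {ρ : H →* GL (Fin n) A}
    (hρ : Continuous ρ) (hres : ∀ g : H, (g : AbsGal) ∈ C → ∃ N : ℕ,
      Pool.Agent.U172.FM.InI (maximalIdeal A) (((ρ g : Matrix (Fin n) (Fin n) A) - 1) ^ N))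
    (k : ℕ) : Layer p C H ((cong ρ k).map H.subtype) := by
  have hopen : IsOpen (((cong ρ k).map H.subtype : Subgroup AbsGal) : Set AbsGal) :=
    isOpen_translate hHo (cong_open hA hρ k)
  have hnorm : ∀ h ∈ H, ∀ l ∈ (cong ρ k).map H.subtype, h * l * h⁻¹ ∈ (cong ρ k).map H.subtype := by
    intro h hh l hl
    rw [Subgroup.mem_map] at hl ⊢
    obtain ⟨τ, hτ, hτl⟩ := hl
    obtain ⟨g, hg⟩ : ∃ g : H, (g : AbsGal) = h := ⟨⟨h, hh⟩, rfl⟩
    refine ⟨g * τ * g⁻¹, (cong_normal ρ k).conj_mem τ hτ g, ?_⟩
    rw [← hg, ← hτl]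
    rfl
  have hpow : ∀ c ∈ C, c ∈ H → ∃ a : ℕ, c ^ p ^ a ∈ (cong ρ k).map H.subtype := by
    intro c hc hcH
    obtain ⟨g, hg⟩ : ∃ g : H, (g : AbsGal) = c := ⟨⟨c, hcH⟩, rfl⟩
    obtain ⟨a, ha⟩ := cong_pow hpA ρ (g := g) (hres g (by rw [hg]; exact hc)) k
    refine ⟨a, ?_⟩
    rw [Subgroup.mem_map]
    refine ⟨g ^ p ^ a, ha, ?_⟩
    rw [← hg]
    rfl
  exact ⟨Subgroup.map_subtype_le _, hopen, hnorm, hpow⟩

theorem compare [TopologicalSpace A] [hp : Fact p.Prime]
    (hSet : Setting p S B C H) (hA : IsAdic (maximalIdeal A)) (hpA : (p : A) ∈ maximalIdeal A)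
    {ρ : H →* GL (Fin m) A} {ρ' : H →* GL (Fin n) A} (hρ : Admissible S C ρ)
    (hρ' : Admissible S C ρ') {X T : Subgroup AbsGal} (hX : Detects p S C X)
    (hT : FinIndex T (X ⊓ H)) : ∃ L, Layer p C H L ∧ Intertwiners ρ ρ' T L := by
  obtain ⟨hHB, hU'⟩ := hSet.between
  obtain ⟨U, hU, hUH⟩ := pext hU'
  have hR : ∀ c ∈ C, ∀ τ ∈ Pool.Agent.U172.FM.outer S, c * τ * c⁻¹ ∈ Pool.Agent.U172.FM.outer S :=
    fun c _ τ hτ => Pool.Agent.U172.FM.outer_conj S c hτ
  have hHo : IsOpen (H : Set AbsGal) := Subgroup.isOpen_mono hUH hU.isOpen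
  obtain ⟨k, hk⟩ := Pool.Agent.U172.FM.inter hU hUH hR hX hA hpA hρ.cont hρ.unipotent
    hρ.unramified hρ'.cont hρ'.unipotent hρ'.unramified (T.subgroupOf H)
    (relIndex_sub hT _ le_rfl)
  refine ⟨(cong (dsum ρ ρ') k).map H.subtype, layer hHo hA hpA (dsum_cont hρ.cont hρ'.cont)
    (fun g hg => dsum_res (hρ.unipotent g hg) (hρ'.unipotent g hg)) k, ?_⟩
  intro E _ _ f hf σ hσ v
  obtain ⟨τ, hτ, hτσ⟩ := hσ
  have e : τ = σ := Subtype.ext hτσ
  subst e
  exact hk E f (fun g hg w => hf g hg w) τ hτ v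

theorem normal_sub {L : Subgroup AbsGal} (hL : Layer p C H L) : (L.subgroupOf H).Normal :=
  ⟨fun l hl h => hL.normal h h.2 l hl⟩

theorem constituents {ρ : H →* GL (Fin m) A} {ρ' : H →* GL (Fin n) A} {T L : Subgroup AbsGal}
    (hL : Layer p C H L) (h : Intertwiners ρ ρ' T L) : Constituents ρ ρ' T L := by
  intro E _ _ hirr f hf0 hf
  have h1 := h E f hf
  obtain ⟨h2, h3, h4⟩ := Pool.Agent.U172.FM.inTwist (r := actHom E ρ) (r' := actHom E ρ')
    (normal_sub hL) (fun W hW => hirr.2 W fun σ _ w hw => hW σ w hw) (f := f)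
    (fun g hg v => h1 g hg v) hf0
  exact ⟨Pool.Agent.U172.FM.comN (actHom E ρ) (actHom E ρ') (L.subgroupOf H), inferInstance,
    inferInstance, Pool.Agent.U172.FM.tau _ _ (normal_sub hL), Pool.Agent.U172.FM.ev _ _ _,
    inferInstance, fun σ hσ => h2 σ hσ, h3, fun σ v x => h4 σ v x⟩

theorem twists {ρ ρ' : H →* GL (Fin n) A} {T L : Subgroup AbsGal} (hL : Layer p C H L)
    (h : Intertwiners ρ ρ' T L) : Twists ρ ρ' T L := by
  intro E _ _ _ hirr f hf0 hf
  have hne : Nonempty (Fin n) := ⟨⟨0, Nat.pos_of_ne_zero hirr.1⟩⟩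
  have hnt : Nontrivial (Fin n → E) := inferInstance
  obtain ⟨h2, η, h3, h4⟩ := Pool.Agent.U172.FM.twist (r := actHom E ρ) (r' := actHom E ρ')
    (normal_sub hL) (fun W hW => hirr.2 L hL.le hL.isOpen W fun σ hσ w hw => hW σ hσ w hw)
    (f := f) (fun g hg v => h E f hf g hg v) hf0
  exact ⟨h2, η, fun σ hσ => h3 σ hσ, fun σ v => h4 σ v⟩

/-- conjugation by `c` -/
noncomputable def cj {c : AbsGal} (hc : Normalizes c H) : H →* H where
  toFun σ := ⟨c * σ * c⁻¹, hc σ σ.2⟩
  map_one' := Subtype.ext (by simp)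
  map_mul' σ τ := Subtype.ext (by simp [mul_assoc])

theorem cj_cont {c : AbsGal} (hc : Normalizes c H) : Continuous (cj hc) :=
  Continuous.subtype_mk ((continuous_const.mul continuous_subtype_val).mul continuous_const) _

theorem dual_adm [TopologicalSpace A] {ρ : H →* GL (Fin n) A} (hρ : Admissible S C ρ) {c : AbsGal}
    (hc : Normalizes c H) (hcC : Normalizes c C) :
    Admissible S C ((ctr A n).comp (ρ.comp (cj hc))) where
  cont := ctr_cont.comp (hρ.cont.comp (cj_cont hc))
  unramified σ hσ := by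
    have h1 : ρ (cj hc σ) = 1 := hρ.unramified _ (Pool.Agent.U172.FM.outer_conj S c hσ)
    change ctr A n (ρ (cj hc σ)) = 1
    rw [h1, map_one]
  unipotent σ hσ := ctr_res (hρ.unipotent (cj hc σ) (hcC σ hσ))

theorem tw_adm [TopologicalSpace A] (hA : IsAdic (maximalIdeal A)) {ρ : H →* GL (Fin n) A}
    {Ψ : H →* Aˣ} (hρ : Admissible S C ρ) (hΨ : AdmissibleChar S C Ψ) :
    Admissible S C (tw ρ Ψ) where
  cont := tw_cont hA hρ.cont hΨ.cont
  unramified σ hσ := by
    show Pool.Agent.U172.FM.sc A n (Ψ σ)⁻¹ * ρ σ = 1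
    rw [hΨ.unramified σ hσ, hρ.unramified σ hσ, inv_one, map_one, one_mul]
  unipotent σ hσ := by
    obtain ⟨N, hN⟩ := hρ.unipotent σ hσ
    exact ⟨N, tw_res hN (hΨ.residual σ hσ)⟩

section form

variable {E : Type} [Field E] [Algebra A E]

/-- the linear map of a bilinear form -/
noncomputable def toF (b : (Fin n → E) →ₗ[E] (Fin n → E) →ₗ[E] E) :
    (Fin n → E) →ₗ[E] (Fin n → E) where
  toFun x := fun j => b x (Pi.single j 1)
  map_add' x y := by
    funext j
    rw [map_add]
    rfl
  map_smul' a x := by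
    funext j
    rw [map_smul]
    rfl

theorem toF_dot (b : (Fin n → E) →ₗ[E] (Fin n → E) →ₗ[E] E) (x y : Fin n → E) :
    toF b x ⬝ᵥ y = b x y := by
  rw [LinearMap.pi_apply_eq_sum_univ (b x) y]
  refine Finset.sum_congr rfl fun i _ => ?_
  rw [smul_eq_mul, mul_comm]
  congr 1
  change b x (Pi.single i 1) = _
  congr 1
  funext j
  rw [Pi.single_apply]
  by_cases h : i = j
  · rw [if_pos h, if_pos h.symm]
  · rw [if_neg h, if_neg (Ne.symm h)]

theorem act_ctr (g : GL (Fin n) A) (z y : Fin n → E) :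
    (((ctr A n g : GL (Fin n) A) : Matrix (Fin n) (Fin n) A).map (algebraMap A E)) *ᵥ z ⬝ᵥ y =
      z ⬝ᵥ ((((g⁻¹ : GL (Fin n) A) : Matrix (Fin n) (Fin n) A).map (algebraMap A E)) *ᵥ y) := by
  rw [ctr_val, Matrix.dotProduct_mulVec, ← Matrix.mulVec_transpose]
  rfl

theorem act_inv (ρ : H →* GL (Fin n) A) (σ : H) (y : Fin n → E) :
    (((((ρ σ)⁻¹ : GL (Fin n) A) : Matrix (Fin n) (Fin n) A).map (algebraMap A E)) *ᵥ
      act ρ σ y) = y := by
  unfold act
  rw [Matrix.mulVec_mulVec, ← Matrix.map_mul, ← Units.val_mul, inv_mul_cancel, Units.val_one,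
    Matrix.map_one _ (map_zero _) (map_one _), Matrix.one_mulVec]

theorem act_inv' (ρ : H →* GL (Fin n) A) (σ : H) (y : Fin n → E) :
    act ρ σ (((((ρ σ)⁻¹ : GL (Fin n) A) : Matrix (Fin n) (Fin n) A).map (algebraMap A E)) *ᵥ
      y) = y := by
  unfold act
  rw [Matrix.mulVec_mulVec, ← Matrix.map_mul, ← Units.val_mul, mul_inv_cancel, Units.val_one,
    Matrix.map_one _ (map_zero _) (map_one _), Matrix.one_mulVec]

theorem act_tw (ρ : H →* GL (Fin n) A) (Ψ : H →* Aˣ) (σ : H) (x : Fin n → E) :
    act ρ σ x = algebraMap A E (Ψ σ : A) • act (tw ρ Ψ) σ x := by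
  have h1 : act (tw ρ Ψ) σ x = algebraMap A E (((Ψ σ)⁻¹ : Aˣ) : A) • act ρ σ x :=
    tw_act ρ Ψ σ x
  rw [h1, smul_smul, ← map_mul, Units.mul_inv, map_one, one_smul]

theorem pair_iff {ρ : H →* GL (Fin n) A} {c : AbsGal} (hc : Normalizes c H) {Ψ : H →* Aˣ}
    (b : (Fin n → E) →ₗ[E] (Fin n → E) →ₗ[E] E) (σ : H) (a : E) :
    (∀ x, toF b (act (tw ρ Ψ) σ x) = a • act ((ctr A n).comp (ρ.comp (cj hc))) σ (toF b x)) ↔
      ∀ x y, b (act ρ σ x) (act ρ (cj hc σ) y) = a * algebraMap A E (Ψ σ : A) * b x y := by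
  have key : ∀ x y, (a • act ((ctr A n).comp (ρ.comp (cj hc))) σ (toF b x)) ⬝ᵥ y =
      a * b x (((((ρ (cj hc σ))⁻¹ : GL (Fin n) A) : Matrix (Fin n) (Fin n) A).map
        (algebraMap A E)) *ᵥ y) := by
    intro x y
    rw [smul_dotProduct, smul_eq_mul]
    congr 1
    rw [← toF_dot b x]
    exact act_ctr (ρ (cj hc σ)) (toF b x) y
  constructor
  · intro h x y
    rw [act_tw ρ Ψ σ x, map_smul, LinearMap.smul_apply, smul_eq_mul, ← toF_dot b, h x, key,
      act_inv ρ (cj hc σ) y]
    ring
  · intro h x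
    refine dotProduct_eq _ _ fun y => ?_
    rw [key, toF_dot]
    have h1 := h x (((((ρ (cj hc σ))⁻¹ : GL (Fin n) A) : Matrix (Fin n) (Fin n) A).map
      (algebraMap A E)) *ᵥ y)
    rw [act_inv' ρ (cj hc σ) y, act_tw ρ Ψ σ x, map_smul, LinearMap.smul_apply, smul_eq_mul] at h1
    have h2 : algebraMap A E (Ψ σ : A) ≠ 0 := ((Ψ σ).isUnit.map (algebraMap A E)).ne_zero
    apply mul_left_cancel₀ h2
    rw [h1]
    ring

end form

theorem polarizations [TopologicalSpace A] [hp : Fact p.Prime]
    (hSet : Setting p S B C H) (hA : IsAdic (maximalIdeal A)) (hpA : (p : A) ∈ maximalIdeal A)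
    {ρ : H →* GL (Fin n) A} (hρ : Admissible S C ρ) {c : AbsGal} (hcH : Normalizes c H)
    (hcC : Normalizes c C) {Ψ : H →* Aˣ} (hΨ : AdmissibleChar S C Ψ) {X T : Subgroup AbsGal}
    (hX : Detects p S C X) (hT : FinIndex T (X ⊓ H)) :
    ∃ L, Layer p C H L ∧ FormsExtend ρ c Ψ T L ∧ Polarizations ρ c Ψ T L := by
  obtain ⟨L, hL, hI⟩ := compare hSet hA hpA (tw_adm hA hρ hΨ) (dual_adm hρ hcH hcC) hX hT
  have hf : ∀ (E : Type) [Field E] [Algebra A E] (b : Form E n), Pairs ρ c (values E Ψ) T b →
      Commutes (tw ρ Ψ) ((ctr A n).comp (ρ.comp (cj hcH))) T (toF b) := by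
    intro E _ _ b hb σ hσ v
    have h1 := (pair_iff hcH b σ (1 : E)).2 (fun x y => by
      rw [one_mul]
      exact hb σ (cj hcH σ) hσ rfl x y) v
    rwa [one_smul] at h1
  refine ⟨L, hL, fun E _ _ b hb => ?_, fun E _ _ _ hirr b hb0 hb => ?_⟩
  · have hf' := hI E (toF b) (hf E b hb)
    intro σ σ' hσ hσ' x y
    have e : σ' = cj hcH σ := Subtype.ext hσ'
    subst e
    have h1 := (pair_iff hcH b σ (1 : E)).1 (fun x => by
      rw [one_smul]
      exact hf' σ hσ x) x y
    rwa [one_mul] at h1
  · have hb1 : toF b ≠ 0 := by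
      intro h0
      apply hb0
      apply LinearMap.ext
      intro x
      apply LinearMap.ext
      intro y
      rw [← toF_dot b, h0, LinearMap.zero_apply, zero_dotProduct]
      rfl
    have hirr' : StronglyIrreducible E (tw ρ Ψ) := by
      refine ⟨hirr.1, fun L' hL' hLo W hW => hirr.2 L' hL' hLo W fun σ hσ w hw => ?_⟩
      rw [act_tw ρ Ψ σ w]
      exact W.smul_mem _ (hW σ hσ w hw)
    obtain ⟨h2, η, h3, h4⟩ := twists hL hI E hirr' (toF b) hb1 (hf E b hb)
    refine ⟨fun x hx => ?_, η, h3, fun σ σ' _ hσ' x y => ?_⟩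
    · apply h2.1
      rw [map_zero]
      funext j
      exact hx _
    · have e : σ' = cj hcH σ := Subtype.ext hσ'
      subst e
      exact (pair_iff hcH b σ (η σ : E)).1 (fun x => h4 σ x) x y

end compare

theorem detects_one {P : Ideal ZBar} (hP : P.IsMaximal) (hpP : (p : ZBar) ∈ P)
    (hC : OnePrimeAbove p C) {X : Subgroup AbsGal} (hX : inertia P ≤ X) (hdet : Detects p ∅ C X) :
    Detects p {p} C X := by
  intro f hf h1 h2
  refine hdet f hf (fun τ hτ => ?_) h2
  obtain ⟨P', hP', -, hτ⟩ := hτ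
  by_cases hp : (p : ZBar) ∈ P'
  · obtain ⟨c, hc, hcP⟩ := hC P P' hP hP' hpP hp
    exact Pool.Agent.U172.FM.one_prime f hc hcP (fun τ hτ => h2 τ (hX hτ)) τ hτ
  · exact h1 τ ⟨P', hP', fun l hl => by rw [Set.mem_singleton_iff] at hl; rwa [hl], hτ⟩

theorem detects_cyclotomic (hp : p.Prime) (h : p ≤ 7 ∨ NoExtension p (cyclotomic p))
    {P : Ideal ZBar} (hP : P.IsMaximal) (hpP : (p : ZBar) ∈ P) :
    Detects p {p} (cyclotomic p) (inertia P) := by
  rw [cyclotomic_eq] at h ⊢
  refine Pool.Agent.U172.FM.det_cyc hp (h.imp id fun h f hf h1 => ?_) hP hpP fun τ hτ => hτ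
  refine h f hf (fun τ hτ => ?_) fun τ hτ => ?_
  · obtain ⟨P', hP', -, h2⟩ := hτ
    exact h1 P' hP' τ h2
  · have e : τ = 1 := Subtype.ext hτ
    rw [e, map_one]

end translation

/-- Representations which are unramified outside `S` and residually unipotent on `C ∩ H`, and which
agree on a subgroup of finite index of one detecting subgroup `X ∩ H`: their intertwiners are
intertwiners of an open normal subgroup with solvable quotient; twists; polarizations. -/
theorem result :
    (∀ (p : ℕ) [Fact p.Prime] (S : Set ℕ) (B C H : Subgroup AbsGal), Setting p S B C H →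
      ∀ (A : Type) [CommRing A] [IsLocalRing A] [IsNoetherianRing A] [TopologicalSpace A],
      IsAdic (maximalIdeal A) → (p : A) ∈ maximalIdeal A → Principle p S C H A) ∧
    InertiaExample ∧ OnePrimeExample ∧ DecompositionExample := by
  refine ⟨fun p _ S B C H hSet A _ _ _ _ hA hpA X hX T hT => ⟨fun m n ρ ρ' hρ hρ' => ?_,
      fun n ρ ρ' hρ hρ' => ?_, fun n ρ hρ c hcH hcC Ψ hΨ =>
        polarizations hSet hA hpA hρ hcH hcC hΨ hX hT⟩,
    fun _ hp h => ⟨fun _ hP hpP => detects_cyclotomic hp h hP hpP,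
      fun _ hH => cyclotomic_setting hp hH⟩,
    fun _ _ hC _ hP hpP _ hX hdet => detects_one hP hpP hC hX hdet,
    fun _ _ hp hq hpq hpow _ hS _ hP hpP =>
      Pool.Agent.U172.FM.det_rat hp hq hpq hpow hS hP hpP fun _ hσ => hσ⟩
  · obtain ⟨L, hL, hI⟩ := compare hSet hA hpA hρ hρ' hX hT
    exact ⟨L, hL, hI, constituents hL hI⟩
  · obtain ⟨L, hL, hI⟩ := compare hSet hA hpA hρ hρ' hX hT
    exact ⟨L, hL, twists hL hI⟩

end Pool.Agent.Results.MP_adf543_nt.AgreementAtOnePlace
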