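import Mathlib
import Pool.Agent.U172.FE.Comp3
import Pool.Agent.U172.FM.Cyclo

/-!
# Agreement at one place above `p`, and the eigenspaces of the class group

Let `F ⊆ k` be number fields, `k / F` abelian of exponent dividing `p - 1` (for example `F` a CM field
and `k = F(ζ_p)`), let `A` be a Noetherian local ring of residue characteristic `p` (for example the
ring of integers of a finite extension of `ℚ_p`), and let `R : G_F → GL_m(A)` and `R' : G_F → GL_n(A)` be
continuous representations, unramified outside a set `S` of primes (containing `p`), which are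
residually triangular with characters `ψ_a` and `ψ'_b` of `Gal(k/F)` with values in `ℤ/p` on the
diagonal; by the theorem of Jordan and Hölder this means that the residual representations are
unipotent on `G_k`. For example `R' = ρ_π` for an automorphic representation `π`. There is no condition
at `p`, and `p` may divide the class number of `k`.

Let `X` be a subgroup with `G_F ⊆ X G_k`, for example the inertia group at a prime `P` above `p`
if `p` is totally ramified in `k / F`. We say that `X` detects a character `χ` of `Gal(k/F)` if no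
cyclic extension of degree `p` of `k`, unramified outside `S`, Galois over `F` with `Gal(k/F)` acting
by `χ`, is fixed by `X ∩ G_k`. Let `X` detect all the quotients of two of the characters `ψ_a`, `ψ'_b`;
**nothing is assumed for the other characters of `Gal(k/F)`**. If `k` has only one prime above `p`,
`S = {p}` and `X` contains the inertia group at `P`, it suffices that no unramified cyclic extension of
degree `p` of `k` belongs to `χ`: the eigenspace of the class group of `k` for `χ` vanishes.

**Theorem.** Let `T` be a subgroup of finite index of `X ∩ G_F`.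
(1) There is a finite Galois extension `L / F` with a solvable Galois group, such that for all fields `E`
with a homomorphism `A → E` all `E`-linear maps from `E ^ m` to `E ^ n` which commute with `T` commute
with `G_L`.
(2) If `R` is irreducible over `E`, and if there is a nonzero `T`-equivariant map from `R` to `R'`, then
`R` is contained in `Hom (N, R')` for a representation `N` of `Gal (L / F)`.
(3) Let `E` be algebraically closed, `m = n`, and let `R` be irreducible on all open subgroups of
`G_F`. If there is a nonzero `T`-equivariant map from `R` to `R'`, it is an isomorphism from `R` to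
`R' ⊗ η` for a character `η` of `Gal (L / F)`.

So for these representations the automorphy of `R` is a question about its restriction to any open
subgroup of one inertia group above `p`: if this restriction is isomorphic to the one of `ρ_π` for
some `π`, with residual characters as above, then `R` is a twist of `ρ_π` by a character of finite order.
(This deduction is not part of the formal proof.) The hand-in `AgreementAtOnePlace` is the analogous
theorem if `X` detects all homomorphisms from `G_k` to `ℤ/p` unramified outside `S`, for `K` between `F`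
and a `p`-extension of `k`; there `p` is regular in the examples.

Proof. The filtration argument for the matrix algebra (`Pool/Agent/U172/FE`), applied to the direct sum
of `R` and `R'`, shows that the image of `X` in the image of `G_F` is dense. So the closure of the image
of `T` is open, and the graph of an intertwiner of `T` is stable under it. Parts (2) and (3) follow by
Schur's lemma.
-/

set_option autoImplicit false
set_option linter.unusedSectionVars false

namespace Pool.Agent.Results.MP_adf543_nt.AgreementByEigenspaces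

open NumberField IsLocalRing Matrix
open scoped Pointwise

/-- an algebraic closure of `ℚ` -/
abbrev QBar : Type := AlgebraicClosure ℚ

/-- the absolute Galois group of a field `F`, with the Krull topology -/
abbrev Galois (F : Type) [Field F] : Type := Gal(AlgebraicClosure F/F)

/-- The absolute Galois group of `ℚ`. The number fields in `QBar` correspond to the open subgroups,
their absolute Galois groups. -/
abbrev AbsGal : Type := Galois ℚ

/-- the ring of all algebraic integers -/
abbrev ZBar : Type := 𝓞 QBar

/-- the inertia group at `P`: all `τ` with `τ x - x ∈ P` for all `x` -/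
noncomputable abbrev inertia (P : Ideal ZBar) : Subgroup AbsGal := P.inertia AbsGal

/-- the inertia elements at the primes which do not lie above a member of `S` -/
def OuterInertia (S : Set ℕ) : Set AbsGal :=
  {τ | ∃ P : Ideal ZBar, P.IsMaximal ∧ (∀ l ∈ S, (l : ZBar) ∉ P) ∧ τ ∈ inertia P}

/-- `B` and `C` are the absolute Galois groups of number fields `F` and `k`, such that `k / F` is
abelian of exponent dividing `p - 1`. -/
structure Setting (p : ℕ) (B C : Subgroup AbsGal) : Prop where
  le : C ≤ B
  isOpen : IsOpen (C : Set AbsGal)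
  normal : ∀ b ∈ B, ∀ c ∈ C, b * c * b⁻¹ ∈ C
  abelian : ∀ a ∈ B, ∀ b ∈ B, a * b * a⁻¹ * b⁻¹ ∈ C
  exponent : ∀ b ∈ B, b ^ (p - 1) ∈ C

/-- the conjugate of `c` by `b` -/
noncomputable def conj (b c : AbsGal) : AbsGal := b * c * b⁻¹

/-- the characters of `B` with values in the multiplicative group of `ℤ/p` -/
abbrev Character (p : ℕ) (B : Subgroup AbsGal) : Type := B →* (ZMod p)ˣ

/-- the value of the character `χ` at `b`, as a natural number less than `p` -/
noncomputable def value {p : ℕ} {B : Subgroup AbsGal} (χ : Character p B) (b : B) : ℕ :=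
  ((χ b : (ZMod p)ˣ) : ZMod p).val

/-- the character `χ` is trivial on `C` -/
def TrivialOn {p : ℕ} {B : Subgroup AbsGal} (C : Subgroup AbsGal) (χ : Character p B) : Prop :=
  ∀ σ : B, (σ : AbsGal) ∈ C → χ σ = 1

/-- the quotient of the characters `ψ a` and `ψ b` -/
noncomputable def ratio {p : ℕ} {B : Subgroup AbsGal} {n : ℕ} (ψ : Fin n → Character p B) (a b : Fin n) :
    Character p B := ψ a * (ψ b)⁻¹

/-- the homomorphisms from `C` to `ℤ/p` (written multiplicatively) -/
abbrev HomP (p : ℕ) (C : Subgroup AbsGal) : Type := C →* Multiplicative (ZMod p)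

/-- the homomorphism `f` is trivial on the elements of `Y` -/
def TrivialAt {p : ℕ} {C : Subgroup AbsGal} (f : HomP p C) (Y : Set AbsGal) : Prop :=
  ∀ τ : C, (τ : AbsGal) ∈ Y → f τ = 1

/-- `f (b c b⁻¹) = χ(b) f(c)`, in multiplicative notation -/
def Equivariant {p : ℕ} {B C : Subgroup AbsGal} (χ : Character p B) (f : HomP p C) : Prop :=
  ∀ (b : B) (c c' : C), (c' : AbsGal) = conj b c → f c' = f c ^ value χ b

/-- `X` detects the character `χ`: every continuous homomorphism `f` from `C` to `ℤ/p` which is
unramified outside `S`, trivial on `X ∩ C` and satisfies `f(b c b⁻¹) = χ(b) f(c)` is trivial. -/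
def DetectsChar (p : ℕ) (S : Set ℕ) {B : Subgroup AbsGal} (C X : Subgroup AbsGal)
    (χ : Character p B) : Prop :=
  ∀ f : HomP p C, IsOpen (f.ker : Set C) → TrivialAt f (OuterInertia S) → TrivialAt f X →
    Equivariant χ f → ∀ g, f g = 1

/-- `X C = B`, and `X` detects all quotients of two of the characters `ψ a` -/
structure Detecting (p : ℕ) (S : Set ℕ) (B C : Subgroup AbsGal) {n : ℕ}
    (ψ : Fin n → Character p B) (X : Subgroup AbsGal) : Prop where
  surjective : ∀ b ∈ B, ∃ x ∈ X, x⁻¹ * b ∈ C
  detects : ∀ a b, DetectsChar p S C X (ratio ψ a b)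

/-- `T` is a subgroup of finite index of `X`. -/
def FinIndex (T X : Subgroup AbsGal) : Prop := T ≤ X ∧ T.relIndex X ≠ 0

section rep

variable {B : Subgroup AbsGal} {A : Type} [CommRing A] {n : ℕ}

/-- `x` is congruent to the natural number `k` modulo the maximal ideal -/
def Cong [IsLocalRing A] (x : A) (k : ℕ) : Prop := x - (k : A) ∈ maximalIdeal A

/-- the matrix `M` is triangular modulo the maximal ideal, with the numbers `d a` on the diagonal -/
def TriMod [IsLocalRing A] (M : Matrix (Fin n) (Fin n) A) (d : Fin n → ℕ) : Prop :=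
  (∀ a b : Fin n, b < a → M a b ∈ maximalIdeal A) ∧ ∀ a, Cong (M a a) (d a)

/-- the matrix `M U M⁻¹` -/
def basis (M U : GL (Fin n) A) : Matrix (Fin n) (Fin n) A := (M * U * M⁻¹ : GL (Fin n) A)

/-- After a change of basis `ρ` is triangular modulo the maximal ideal, with the characters `ψ a` on
the diagonal. -/
def Triangular [IsLocalRing A] {p : ℕ} (ψ : Fin n → Character p B)
    (ρ : B →* GL (Fin n) A) : Prop :=
  ∃ M : GL (Fin n) A, ∀ σ : B, TriMod (basis M (ρ σ)) fun a => value (ψ a) σ

/-- `ρ` is continuous, unramified outside `S` and residually triangular with the characters `ψ a`,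
which are trivial on `C`. -/
structure Admissible [IsLocalRing A] [TopologicalSpace A] {p : ℕ} (S : Set ℕ)
    (C : Subgroup AbsGal) (ψ : Fin n → Character p B) (ρ : B →* GL (Fin n) A) : Prop where
  cont : Continuous ρ
  unramified : ∀ σ : B, (σ : AbsGal) ∈ OuterInertia S → ρ σ = 1
  trivialOn : ∀ a, TrivialOn C (ψ a)
  triangular : Triangular ψ ρ

variable {E : Type} [Field E] [Algebra A E]

/-- the action of `σ` on `V = E ^ n` -/
noncomputable def act (ρ : B →* GL (Fin n) A) (σ : B) (v : Fin n → E) : Fin n → E :=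
  ((ρ σ : Matrix (Fin n) (Fin n) A).map (algebraMap A E)) *ᵥ v

/-- the subspace `W` of `V` is stable under the elements of `T` -/
def Stable (ρ : B →* GL (Fin n) A) (T : Subgroup AbsGal) (W : Submodule E (Fin n → E)) : Prop :=
  ∀ σ : B, (σ : AbsGal) ∈ T → ∀ w ∈ W, act ρ σ w ∈ W

/-- `V` is irreducible -/
def Irreducible (E : Type) [Field E] [Algebra A E] (ρ : B →* GL (Fin n) A) : Prop :=
  n ≠ 0 ∧ ∀ W : Submodule E (Fin n → E), Stable ρ B W → W = ⊥ ∨ W = ⊤


/-- `V` is irreducible on all open subgroups of `B` -/
def StronglyIrreducible (E : Type) [Field E] [Algebra A E] (ρ : B →* GL (Fin n) A) : Prop :=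
  n ≠ 0 ∧ ∀ L ≤ B, IsOpen (L : Set AbsGal) →
    ∀ W : Submodule E (Fin n → E), Stable ρ L W → W = ⊥ ∨ W = ⊤

end rep

/-- `L` is an open normal subgroup of `B`, and all elements of `C ∩ B` have a power of order `p ^ a` in
`L`. If `C` contains the commutators of the elements of `B`, then `B / L` is a finite solvable group:
an extension of an abelian group by a `p`-group. -/
structure Layer (p : ℕ) (C B L : Subgroup AbsGal) : Prop where
  le : L ≤ B
  isOpen : IsOpen (L : Set AbsGal)
  normal : ∀ h ∈ B, ∀ l ∈ L, h * l * h⁻¹ ∈ L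
  pow : ∀ c ∈ C, c ∈ B → ∃ a : ℕ, c ^ p ^ a ∈ L

section pairs

/-- linear maps from `E ^ m` to `E ^ n` -/
abbrev LinMap (E : Type) [Field E] (m n : ℕ) : Type := (Fin m → E) →ₗ[E] (Fin n → E)

/-- linear maps from `E ^ m` to the linear maps from `N` to `E ^ n` -/
abbrev HomMap (E : Type) [Field E] (m n : ℕ) (N : Type) [AddCommGroup N] [Module E N] : Type :=
  (Fin m → E) →ₗ[E] (N →ₗ[E] (Fin n → E))

variable {B : Subgroup AbsGal} {A : Type} [CommRing A] {m n : ℕ}

section field

variable {E : Type} [Field E]

/-- the character `η` of `B` is trivial on `L` -/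
def TrivialChar (L : Subgroup AbsGal) (η : B →* Eˣ) : Prop :=
  ∀ σ : B, (σ : AbsGal) ∈ L → η σ = 1

/-- the representation `τ` of `B` is trivial on `L` -/
def TrivialRep {N : Type} [AddCommGroup N] [Module E N] (L : Subgroup AbsGal)
    (τ : Representation E B N) : Prop :=
  ∀ σ : B, (σ : AbsGal) ∈ L → τ σ = 1

variable [Algebra A E]

/-- The linear map `f` commutes with the elements of `T`. -/
def Commutes (ρ : B →* GL (Fin m) A) (ρ' : B →* GL (Fin n) A) (T : Subgroup AbsGal)
    (f : LinMap E m n) : Prop :=
  ∀ σ : B, (σ : AbsGal) ∈ T → ∀ v, f (act ρ σ v) = act ρ' σ (f v)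

/-- The linear map `f` commutes with `B` up to the character `η`. -/
def CommutesUpTo (ρ ρ' : B →* GL (Fin n) A) (η : B →* Eˣ) (f : LinMap E n n) : Prop :=
  ∀ σ v, f (act ρ σ v) = (η σ : E) • act ρ' σ (f v)

/-- The linear map `j` from `V` to `Hom (N, V')` is compatible with the actions of `B`. -/
def Compatible {N : Type} [AddCommGroup N] [Module E N] (ρ : B →* GL (Fin m) A)
    (ρ' : B →* GL (Fin n) A) (τ : Representation E B N) (j : HomMap E m n N) : Prop :=
  ∀ σ v x, j (act ρ σ v) (τ σ x) = act ρ' σ (j v x)

end field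

/-- `V` is contained in `Hom (N, V')` for a finite-dimensional representation `τ` of `B` on a vector
space `N` over `E`, which is trivial on `L`: there is an injective linear map `j` from `V` to
`Hom (N, V')` which is compatible with the actions. -/
def InTwist (E : Type) [Field E] [Algebra A E] (ρ : B →* GL (Fin m) A) (ρ' : B →* GL (Fin n) A)
    (L : Subgroup AbsGal) : Prop :=
  ∃ (N : Type) (_ : AddCommGroup N) (_ : Module E N) (τ : Representation E B N)
    (j : HomMap E m n N), FiniteDimensional E N ∧ TrivialRep L τ ∧ Function.Injective j ∧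
    Compatible ρ ρ' τ j

/-- (1) All linear maps which commute with `T` commute with `L`. -/
def Intertwiners (ρ : B →* GL (Fin m) A) (ρ' : B →* GL (Fin n) A) (T L : Subgroup AbsGal) : Prop :=
  ∀ (E : Type) [Field E] [Algebra A E] (f : LinMap E m n),
    Commutes ρ ρ' T f → Commutes ρ ρ' L f

/-- (2) If `V` is irreducible, and if there is a nonzero linear map from `V` to `V'` which commutes
with `T`, then `V` is contained in a twist of `V'` by a representation which is trivial on `L`. -/
def Constituents (ρ : B →* GL (Fin m) A) (ρ' : B →* GL (Fin n) A) (T L : Subgroup AbsGal) : Prop :=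
  ∀ (E : Type) [Field E] [Algebra A E], Irreducible E ρ →
    ∀ f : LinMap E m n, f ≠ 0 → Commutes ρ ρ' T f → InTwist E ρ ρ' L

/-- (3) If `V` is irreducible on all open subgroups of `B`, every nonzero linear map from `V` to `V'`
which commutes with `T` is an isomorphism from `V` to `V' ⊗ η`, where the character `η` of `B` is
trivial on `L`. -/
def Twists (ρ ρ' : B →* GL (Fin n) A) (T L : Subgroup AbsGal) : Prop :=
  ∀ (E : Type) [Field E] [Algebra A E] [IsAlgClosed E], StronglyIrreducible E ρ →
    ∀ f : LinMap E n n, f ≠ 0 → Commutes ρ ρ' T f → Function.Bijective f ∧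
      ∃ η : B →* Eˣ, TrivialChar L η ∧ CommutesUpTo ρ ρ' η f

end pairs

section principle

variable (p : ℕ) (S : Set ℕ) (B C : Subgroup AbsGal) (A : Type) [CommRing A] [IsLocalRing A]
  [TopologicalSpace A]

/-- the characters `ψ` and `ψ'` together -/
abbrev joint {p : ℕ} {B : Subgroup AbsGal} {m n : ℕ} (ψ : Fin m → Character p B)
    (ψ' : Fin n → Character p B) : Fin (m + n) → Character p B := Fin.append ψ ψ'

/-- (1) and (2): for all pairs of admissible representations with residual characters `ψ` and `ψ'`, all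
`X` which detect the quotients of two of these characters, and all subgroups `T` of finite index. -/
def ForPairs : Prop :=
  ∀ (m n : ℕ) (ψ : Fin m → Character p B) (ψ' : Fin n → Character p B) (ρ : B →* GL (Fin m) A)
    (ρ' : B →* GL (Fin n) A), Admissible S C ψ ρ → Admissible S C ψ' ρ' →
    ∀ X, Detecting p S B C (joint ψ ψ') X → ∀ T, FinIndex T (X ⊓ B) →
      ∃ L, Layer p C B L ∧ Intertwiners ρ ρ' T L ∧ Constituents ρ ρ' T L

/-- (3), in the same way -/
def ForEqualRanks : Prop :=
  ∀ (n : ℕ) (ψ ψ' : Fin n → Character p B) (ρ ρ' : B →* GL (Fin n) A), Admissible S C ψ ρ →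
    Admissible S C ψ' ρ' → ∀ X, Detecting p S B C (joint ψ ψ') X → ∀ T, FinIndex T (X ⊓ B) →
      ∃ L, Layer p C B L ∧ Twists ρ ρ' T L

end principle

/-- `k` has only one prime above `p` -/
def OnePrimeAbove (p : ℕ) (C : Subgroup AbsGal) : Prop :=
  ∀ P P' : Ideal ZBar, P.IsMaximal → P'.IsMaximal → (p : ZBar) ∈ P → (p : ZBar) ∈ P' →
    ∃ c ∈ C, c • P = P'

/-- Fields `k` with one prime above `p`: if `X` contains the inertia group at a prime above `p` and
detects `χ` for the empty set of primes (the condition on the class group), it detects `χ` for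
`S = {p}`. -/
def OnePrimeExample : Prop :=
  ∀ (p : ℕ) (B C : Subgroup AbsGal) (χ : Character p B), OnePrimeAbove p C →
    ∀ P : Ideal ZBar, P.IsMaximal → (p : ZBar) ∈ P → ∀ X, inertia P ≤ X →
      DetectsChar p ∅ C X χ → DetectsChar p {p} C X χ

/-! ### Translation -/

section translation

variable {p : ℕ} {S : Set ℕ} {B C : Subgroup AbsGal}

theorem relIndex_sub {T X : Subgroup AbsGal} (h : FinIndex T (X ⊓ B)) (Q : Subgroup B)
    (hT : T.subgroupOf B ≤ Q) : Q.relIndex (X.subgroupOf B) ≠ 0 := by
  obtain ⟨h1, h2⟩ := h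
  have h4 : (T.subgroupOf B).relIndex (X.subgroupOf B) ≠ 0 := by
    rw [← Subgroup.inf_subgroupOf_right X B, Subgroup.relIndex_subgroupOf inf_le_right]
    exact h2
  intro h5
  exact h4 (Subgroup.relIndex_eq_zero_of_le_left hT h5)

theorem isOpen_translate (hB : IsOpen (B : Set AbsGal)) {L : Subgroup B} (hL : IsOpen (L : Set B)) :
    IsOpen ((L.map B.subtype : Subgroup AbsGal) : Set AbsGal) := by
  rw [Subgroup.coe_map]
  exact hB.isOpenMap_subtype_val _ hL

open Pool.Agent.U172.FM (cong cong_open cong_pow cong_normal dsum dsum_cont dsum_one actHom)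
open Pool.Agent.U172.FE (Tri cj cong_cj blkU cj_dsum tri_dsum)

variable {A : Type} [CommRing A] [IsLocalRing A] [IsNoetherianRing A] {m n : ℕ}

theorem tri_of [Fact p.Prime] {ρ : B →* GL (Fin n) A} {ψ : Fin n → Character p B}
    (h : Triangular ψ ρ) : ∃ M : GL (Fin n) A, Tri p ψ (cj M ρ) := by
  obtain ⟨M, hM⟩ := h
  exact ⟨M, fun σ a b hab => (hM σ).1 a b hab, fun σ a => (hM σ).2 a⟩

/-- the layer of a congruence subgroup -/
theorem layer [Fact p.Prime] [TopologicalSpace A] (hBo : IsOpen (B : Set AbsGal))
    (hA : IsAdic (maximalIdeal A)) (hpA : (p : A) ∈ maximalIdeal A) {ρ : B →* GL (Fin n) A}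
    (hρ : Continuous ρ) {ψ : Fin n → Character p B} {M : GL (Fin n) A} (hM : Tri p ψ (cj M ρ))
    (hψ : ∀ a, TrivialOn C (ψ a)) (k : ℕ) : Layer p C B ((cong ρ k).map B.subtype) := by
  have hopen : IsOpen (((cong ρ k).map B.subtype : Subgroup AbsGal) : Set AbsGal) :=
    isOpen_translate hBo (cong_open hA hρ k)
  have hnorm : ∀ h ∈ B, ∀ l ∈ (cong ρ k).map B.subtype, h * l * h⁻¹ ∈ (cong ρ k).map B.subtype := by
    intro h hh l hl
    rw [Subgroup.mem_map] at hl ⊢
    obtain ⟨τ, hτ, hτl⟩ := hl
    obtain ⟨g, hg⟩ : ∃ g : B, (g : AbsGal) = h := ⟨⟨h, hh⟩, rfl⟩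
    refine ⟨g * τ * g⁻¹, (cong_normal ρ k).conj_mem τ hτ g, ?_⟩
    rw [← hg, ← hτl]
    rfl
  have hpow : ∀ c ∈ C, c ∈ B → ∃ a : ℕ, c ^ p ^ a ∈ (cong ρ k).map B.subtype := by
    intro c hc hcB
    obtain ⟨g, hg⟩ : ∃ g : B, (g : AbsGal) = c := ⟨⟨c, hcB⟩, rfl⟩
    obtain ⟨a, ha⟩ := cong_pow hpA (cj M ρ) (g := g)
      (hM.res fun a => hψ a g (by rw [hg]; exact hc)) k
    rw [cong_cj] at ha
    refine ⟨a, ?_⟩
    rw [Subgroup.mem_map]
    refine ⟨g ^ p ^ a, ha, ?_⟩
    rw [← hg]
    rfl
  exact ⟨Subgroup.map_subtype_le _, hopen, hnorm, hpow⟩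

theorem compare [TopologicalSpace A] [hp : Fact p.Prime] (hSet : Setting p B C)
    (hA : IsAdic (maximalIdeal A)) (hpA : (p : A) ∈ maximalIdeal A)
    {ψ : Fin m → Character p B} {ψ' : Fin n → Character p B}
    {ρ : B →* GL (Fin m) A} {ρ' : B →* GL (Fin n) A} (hρ : Admissible S C ψ ρ)
    (hρ' : Admissible S C ψ' ρ') {X T : Subgroup AbsGal}
    (hX : Detecting p S B C (joint ψ ψ') X) (hT : FinIndex T (X ⊓ B)) :
    ∃ L, Layer p C B L ∧ Intertwiners ρ ρ' T L := by
  obtain ⟨M, hM⟩ := tri_of hρ.triangular
  obtain ⟨M', hM'⟩ := tri_of hρ'.triangular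
  have hBo : IsOpen (B : Set AbsGal) := Subgroup.isOpen_mono hSet.le hSet.isOpen
  have hMM : Tri p (Fin.append ψ ψ') (cj (blkU M M') (dsum ρ ρ')) := by
    rw [cj_dsum]
    exact tri_dsum hM hM'
  have hψ : ∀ a : Fin (m + n), TrivialOn C (Fin.append ψ ψ' a) := by
    intro a
    induction a using Fin.addCases with
    | left a =>
      rw [Fin.append_left]
      exact hρ.trivialOn a
    | right a =>
      rw [Fin.append_right]
      exact hρ'.trivialOn a
  have hcont : Continuous (dsum ρ ρ') := dsum_cont hρ.cont hρ'.cont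
  have hLG : Pool.Agent.U172.FE.LG (dsum ρ ρ') (X.subgroupOf B) :=
    Pool.Agent.U172.FE.lg (R := Pool.Agent.U172.FM.outer S) hSet.le hSet.isOpen hSet.normal
      hSet.abelian hSet.exponent hA hpA hcont hMM hψ
      (fun g hg => dsum_one (hρ.unramified g hg) (hρ'.unramified g hg)) hX.surjective
      (fun a c f h1 h2 h3 h4 => hX.detects a c f h1 h2 h3 h4)
  obtain ⟨k, hk⟩ := hLG.inter (T.subgroupOf B) (relIndex_sub hT _ le_rfl)
  refine ⟨(cong (dsum ρ ρ') k).map B.subtype, layer hBo hA hpA hcont hMM hψ k, ?_⟩
  intro E _ _ f hf σ hσ v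
  obtain ⟨τ, hτ, hτσ⟩ := hσ
  have e : τ = σ := Subtype.ext hτσ
  subst e
  exact hk E f (fun g hg w => hf g hg w) τ hτ v

theorem normal_sub {L : Subgroup AbsGal} (hL : Layer p C B L) : (L.subgroupOf B).Normal :=
  ⟨fun l hl h => hL.normal h h.2 l hl⟩

theorem constituents {ρ : B →* GL (Fin m) A} {ρ' : B →* GL (Fin n) A} {T L : Subgroup AbsGal}
    (hL : Layer p C B L) (h : Intertwiners ρ ρ' T L) : Constituents ρ ρ' T L := by
  intro E _ _ hirr f hf0 hf
  have h1 := h E f hf
  obtain ⟨h2, h3, h4⟩ := Pool.Agent.U172.FM.inTwist (r := actHom E ρ) (r' := actHom E ρ')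
    (normal_sub hL) (fun W hW => hirr.2 W fun σ _ w hw => hW σ w hw) (f := f)
    (fun g hg v => h1 g hg v) hf0
  exact ⟨Pool.Agent.U172.FM.comN (actHom E ρ) (actHom E ρ') (L.subgroupOf B), inferInstance,
    inferInstance, Pool.Agent.U172.FM.tau _ _ (normal_sub hL), Pool.Agent.U172.FM.ev _ _ _,
    inferInstance, fun σ hσ => h2 σ hσ, h3, fun σ v x => h4 σ v x⟩

theorem twists {ρ ρ' : B →* GL (Fin n) A} {T L : Subgroup AbsGal} (hL : Layer p C B L)
    (h : Intertwiners ρ ρ' T L) : Twists ρ ρ' T L := by
  intro E _ _ _ hirr f hf0 hf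
  have hne : Nonempty (Fin n) := ⟨⟨0, Nat.pos_of_ne_zero hirr.1⟩⟩
  have hnt : Nontrivial (Fin n → E) := inferInstance
  obtain ⟨h2, η, h3, h4⟩ := Pool.Agent.U172.FM.twist (r := actHom E ρ) (r' := actHom E ρ')
    (normal_sub hL) (fun W hW => hirr.2 L hL.le hL.isOpen W fun σ hσ w hw => hW σ hσ w hw)
    (f := f) (fun g hg v => h E f hf g hg v) hf0
  exact ⟨h2, η, fun σ hσ => h3 σ hσ, fun σ v => h4 σ v⟩

theorem detects_one {P : Ideal ZBar} (hP : P.IsMaximal) (hpP : (p : ZBar) ∈ P)
    (hC : OnePrimeAbove p C) {X : Subgroup AbsGal} (hX : inertia P ≤ X) {χ : Character p B}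
    (hdet : DetectsChar p ∅ C X χ) : DetectsChar p {p} C X χ := by
  intro f hf h1 h2 h3
  refine hdet f hf (fun τ hτ => ?_) h2 h3
  obtain ⟨P', hP', -, hτ⟩ := hτ
  by_cases hp : (p : ZBar) ∈ P'
  · obtain ⟨c, hc, hcP⟩ := hC P P' hP hP' hpP hp
    exact Pool.Agent.U172.FM.one_prime f hc hcP (fun τ hτ => h2 τ (hX hτ)) τ hτ
  · exact h1 τ ⟨P', hP', fun l hl => by rw [Set.mem_singleton_iff] at hl; rwa [hl], hτ⟩

end translation

/-- Residually triangular representations of `G_F`, unramified outside `S`, which agree on a subgroup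
`T` of finite index of a subgroup `X` which detects the quotients of the residual characters: their
intertwiners over `T` are intertwiners over an open normal subgroup with solvable quotient; twists;
detection for fields with one prime above `p`. -/
theorem result :
    (∀ (p : ℕ) [Fact p.Prime] (S : Set ℕ) (B C : Subgroup AbsGal), Setting p B C →
      ∀ (A : Type) [CommRing A] [IsLocalRing A] [IsNoetherianRing A] [TopologicalSpace A],
      IsAdic (maximalIdeal A) → (p : A) ∈ maximalIdeal A →
      ForPairs p S B C A ∧ ForEqualRanks p S B C A) ∧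
    OnePrimeExample := by
  refine ⟨fun p _ S B C hSet A _ _ _ _ hA hpA => ⟨fun m n ψ ψ' ρ ρ' hρ hρ' X hX T hT => ?_,
      fun n ψ ψ' ρ ρ' hρ hρ' X hX T hT => ?_⟩,
    fun _ _ _ _ hC _ hP hpP _ hX hdet => detects_one hP hpP hC hX hdet⟩
  · obtain ⟨L, hL, hI⟩ := compare hSet hA hpA hρ hρ' hX hT
    exact ⟨L, hL, hI, constituents hL hI⟩
  · obtain ⟨L, hL, hI⟩ := compare hSet hA hpA hρ hρ' hX hT
    exact ⟨L, hL, twists hL hI⟩

end Pool.Agent.Results.MP_adf543_nt.AgreementByEigenspaces
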