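import Pool.Agent.U707.LI.All

/-!
# Automorphy from any combination of automorphic traces on a set of places of positive density

`K` is a number field (for instance a CM field), `R` a continuous representation of its Galois group
over `ℚ̄_p` of any dimension `m`, irreducible on every open subgroup. No condition at the places
above `p` and no polarization is assumed. `W_i` are finitely many continuous representations of
dimensions at most `m` (for instance the `ρ_{π_i}`, `π_i` algebraic automorphic representations of
`GL_{m_i}`, `m_i ≤ m`, of any weights and levels, and their twists by continuous characters). If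
`tr R(Frob_v) = ∑ c_i tr W_i(Frob_v)`, with coefficients `c_i` in `ℚ̄_p`, for the places `v` of a
set of positive upper density, then some `W_i` with `c_i ≠ 0` is of dimension `m`, and `R` is
isomorphic to `W_i ⊗ χ` for a character `χ` of finite order.

Parts of the proof are by helper140, helper784, helper187, helper612, helper94 (see
`Pool.Agent.U707.LI.All`).
-/

set_option autoImplicit false

namespace Pool.Agent.Results.MP_adf543_nt.AnyCombination

open NumberField IsDedekindDomain Module Pool.Agent.W401.Cheb Pool.Agent.U707 Pool.Agent.U707.LI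

/-- **Automorphy from any combination of automorphic traces.** -/
theorem result {K : Type} [Field K] [NumberField K] {p : ℕ} [Fact p.Prime]
    (R : LI.Rep K (PadicAlgCl p)) (hR : R.StronglyIrreducible)
    {ι : Type} [Fintype ι] (W : ι → LI.Rep K (PadicAlgCl p))
    (hW : ∀ i, finrank (PadicAlgCl p) (W i).V ≤ finrank (PadicAlgCl p) R.V)
    (c : ι → PadicAlgCl p) {P : Set (HeightOneSpectrum (𝓞 K))} (hP : PosDensity P)
    (h : ∀ v ∈ P, ∀ φ, GeoFrob v φ → R.tr φ = ∑ i, c i * (W i).tr φ) :
    ∃ i, c i ≠ 0 ∧ finrank (PadicAlgCl p) (W i).V = finrank (PadicAlgCl p) R.V ∧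
      ∃ χ : GK K →* (PadicAlgCl p)ˣ, IsOpen (χ.ker : Set (GK K)) ∧
        ∃ e : (W i).V ≃ₗ[PadicAlgCl p] R.V, ∀ g x,
          R.ρ g (e x) = (χ g : PadicAlgCl p) • e ((W i).ρ g x) := by
  have hnt := R.nontriv hR
  obtain ⟨i, hi, U, hUn, hUo, hs⟩ := indep sHAAR sCHEB sTRANS sIND R (fun U hU => R.full hR U hU)
    W c hP h
  have hdim : finrank (PadicAlgCl p) (W i).V = finrank (PadicAlgCl p) R.V := by
    obtain ⟨B, f, hf, -⟩ := hs
    have h1 : finrank (PadicAlgCl p) R.V ≤ finrank (PadicAlgCl p) B :=
      LinearMap.finrank_le_finrank_of_surjective hf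
    exact le_antisymm (hW i) (h1.trans (Submodule.finrank_le B))
  have := hUn
  obtain ⟨χ, e, hχ, he⟩ := sTW (GK K) (PadicAlgCl p) U R.V (W i).V R.ρ (W i).ρ
    (R.full hR U hUo) hs hdim
  refine ⟨i, hi, hdim, χ⁻¹, ?_, e, fun g x => ?_⟩
  · have hker : ((χ⁻¹ : GK K →* (PadicAlgCl p)ˣ).ker : Set (GK K)) = (χ.ker : Set (GK K)) := by
      ext g
      simp only [SetLike.mem_coe, MonoidHom.mem_ker, MonoidHom.inv_apply, inv_eq_one]
    rw [hker]
    exact Subgroup.isOpen_mono (fun h hh => hχ h hh) hUo
  · rw [MonoidHom.inv_apply, he g x, smul_smul, Units.inv_mul, one_smul]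

end Pool.Agent.Results.MP_adf543_nt.AnyCombination
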