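import Pool.Agent.U419.UG.Pol

/-!
# Polarized Galois representations with isomorphic irreducible reductions

Let `F ⊆ K ⊆ L` be number fields, `K` and `L` Galois over `F` (in the question `F` is the maximal totally
real subfield of the CM field `K`), and let `S` be a set of prime numbers. Let `A` be a noetherian
local ring with its adic topology and residue field `κ` (for instance the integers of a finite
extension of `ℚ_p`), and let `R₁`, `R₂` be continuous representations of rank `m ≥ 1` over `A` of the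
absolute Galois group of `K`, which are unramified over `L` at all finite places outside `S` (if `p`
is not in `S`, they are potentially unramified at `p`), with `R_i^∨ ≅ R_i^c ⊗ Ψ_i` for an element `c` of
the absolute Galois group of `F` (in the question the complex conjugation) and characters `Ψ₁`, `Ψ₂`
of that group which agree over `L`. Suppose that the reductions of `R₁` and `R₂` are isomorphic and
absolutely irreducible over `L`, and that for some `σ` in `c Gal(Ω / K)` (in the question: some `σ`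
which is not trivial on `K`, for instance `c`) there is no nonzero class in `H ^ 1 (L, ad (R₁ ⊗ κ))`,
unramified outside `S`, which is fixed by the action of `σ` that is given by the polarization.

Then `R₂ ≅ R₁ ⊗ θ` for a character `θ` of `Gal(L / K)`. In particular `R₂` has finite image, or is
automorphic, if and only if this holds for `R₁`.
-/

set_option autoImplicit false

open NumberField IsLocalRing Matrix

namespace Pool.Agent.Results.MP_adf543_nt.PolarizedLifts

/-- an algebraic closure `Ω` of `F` -/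
abbrev Om (F : Type) [Field F] : Type := AlgebraicClosure F

/-- the absolute Galois group of `F`, with the Krull topology -/
def GF (F : Type) [Field F] : Type := Gal(AlgebraicClosure F/F)

noncomputable instance (F : Type) [Field F] : Group (GF F) :=
  show Group Gal(AlgebraicClosure F/F) from inferInstance

/-- the absolute Galois group of `K`, a subgroup of that of `F`, with the Krull topology -/
def GK {F : Type} [Field F] (K : IntermediateField F (Om F)) : Type := K.fixingSubgroup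

noncomputable instance {F : Type} [Field F] (K : IntermediateField F (Om F)) : Group (GK K) :=
  show Group K.fixingSubgroup from inferInstance

noncomputable instance {F : Type} [Field F] (K : IntermediateField F (Om F)) :
    TopologicalSpace (GK K) :=
  show TopologicalSpace K.fixingSubgroup from inferInstance

instance {F : Type} [Field F] (K : IntermediateField F (Om F)) : IsTopologicalGroup (GK K) :=
  show IsTopologicalGroup K.fixingSubgroup from inferInstance

/-- the inclusion of the absolute Galois group of `K` in that of `F` -/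
noncomputable def incl {F : Type} [Field F] (K : IntermediateField F (Om F)) : GK K →* GF F :=
  K.fixingSubgroup.subtype

/-- the absolute Galois group of `L`, as a subgroup of that of `K` -/
noncomputable def Over {F : Type} [Field F] (K L : IntermediateField F (Om F)) :
    Subgroup (GK K) :=
  L.fixingSubgroup.subgroupOf K.fixingSubgroup

/-- the union of the inertia groups, in the absolute Galois group of `K`, at the finite places
which do not lie above the primes of `S` -/
def Inertia {F : Type} [Field F] (K : IntermediateField F (Om F)) (S : Set ℕ) : Set (GK K) :=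
  {τ | ∃ P : Ideal (𝓞 (Om F)), P.IsMaximal ∧ (∀ q ∈ S, (q : 𝓞 (Om F)) ∉ P) ∧
    ∀ x : 𝓞 (Om F), (τ : K.fixingSubgroup).1 • x - x ∈ P}

/-- `A` is a local ring with its adic topology, `R` is a continuous representation of `G`, trivial
on the elements of the set `I` (inertia) which lie in the subgroup `H`. -/
structure IsAdmissible {G : Type} [Group G] [TopologicalSpace G] (H : Subgroup G) (I : Set G)
    {A : Type} [CommRing A] [IsLocalRing A] [TopologicalSpace A] {m : ℕ}
    (R : G →* GL (Fin m) A) : Prop where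
  adic : IsAdic (maximalIdeal A)
  continuous : Continuous R
  unramified : ∀ τ ∈ H, τ ∈ I → R τ = 1

/-- `ι` is the inclusion of `G` in a bigger group `Γ`. `T` is an isomorphism between the contragredient
of `R` and `R^σ ⊗ Ψ`, where `R^σ (g) = R (σ g σ⁻¹)`: `Ψ(g) R(σ g σ⁻¹) = T (R(g)⁻¹)ᵀ T⁻¹`. -/
def IsPolarization {Γ G : Type} [Group Γ] [Group G] (ι : G →* Γ) {B : Type} [CommRing B]
    {m : ℕ} (σ : Γ) (Ψ : Γ →* Bˣ) (R : G →* GL (Fin m) B) (T : GL (Fin m) B) : Prop :=
  ∀ g h : G, ι h = σ * ι g * σ⁻¹ → (Ψ (ι g)).1 • (R h).1 = T.1 * ((R g)⁻¹.1)ᵀ * T⁻¹.1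

/-- the reduction of `R`, with values in the matrices over the residue field -/
noncomputable def reduction {G : Type} [Group G] {A : Type}
    [CommRing A] [IsLocalRing A] {m : ℕ} (R : G →* GL (Fin m) A) :
    G →* GL (Fin m) (ResidueField A) :=
  (Matrix.GeneralLinearGroup.map (residue A)).comp R

/-- the reduction of the character `Ψ` -/
noncomputable def reductionChar {Γ : Type} [Group Γ] {A : Type} [CommRing A] [IsLocalRing A]
    (Ψ : Γ →* Aˣ) : Γ →* (ResidueField A)ˣ :=
  (Units.map (residue A).toMonoidHom).comp Ψ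

/-- `r` is absolutely irreducible on `H`: its values there span all matrices (by Burnside's
theorem). -/
def IrreducibleOn {G : Type} [Group G] (H : Subgroup G) {κ : Type} [Field κ]
    {m : ℕ} (r : G →* GL (Fin m) κ) : Prop :=
  Submodule.span κ ((fun g => (r g).1) '' (H : Set G)) = ⊤

/-- `r₁` and `r₂` are isomorphic on `H`. -/
def IsomorphicOn {G : Type} [Group G] (H : Subgroup G) {B : Type} [CommRing B]
    {m : ℕ} (r₁ r₂ : G →* GL (Fin m) B) : Prop :=
  ∃ X : GL (Fin m) B, ∀ g ∈ H, r₂ g = X * r₁ g * X⁻¹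

/-- the adjoint action: `M ↦ r(g) M r(g)⁻¹` -/
def ad {G : Type} [Group G] {κ : Type} [Field κ] {m : ℕ} (r : G →* GL (Fin m) κ) (g : G)
    (M : Matrix (Fin m) (Fin m) κ) : Matrix (Fin m) (Fin m) κ :=
  (r g).1 * M * (r g)⁻¹.1

/-- the adjoint action of the contragredient: `M ↦ (r(g)⁻¹)ᵀ M r(g)ᵀ` -/
def coad {G : Type} [Group G] {κ : Type} [Field κ] {m : ℕ} (r : G →* GL (Fin m) κ) (g : G)
    (M : Matrix (Fin m) (Fin m) κ) : Matrix (Fin m) (Fin m) κ :=
  ((r g)⁻¹.1)ᵀ * M * ((r g).1)ᵀ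

/-- `b` (of which only the values on the subgroup `H` matter) is a continuous cocycle on `H` with values
in the matrices (with the adjoint action), trivial on `I`. -/
def IsCocycle {G : Type} [Group G] [TopologicalSpace G] (H : Subgroup G) (I : Set G) {κ : Type}
    [Field κ] {m : ℕ} (r : G →* GL (Fin m) κ) (b : G → Matrix (Fin m) (Fin m) κ) : Prop :=
  (∀ g ∈ H, ∀ h ∈ H, b (g * h) = b g + ad r g (b h)) ∧
    (∃ U : Subgroup G, IsOpen (U : Set G) ∧ ∀ g ∈ U, g ∈ H → b g = 0) ∧
    ∀ τ ∈ H, τ ∈ I → b τ = 0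

/-- `b` is a coboundary on `H`. -/
def IsCoboundary {G : Type} [Group G] (H : Subgroup G) {κ : Type}
    [Field κ] {m : ℕ} (r : G →* GL (Fin m) κ) (b : G → Matrix (Fin m) (Fin m) κ) : Prop :=
  ∃ x : Matrix (Fin m) (Fin m) κ, ∀ g ∈ H, b g = x - ad r g x

/-- The class of the cocycle `b` on `H` is fixed by the action of `σ` which is given by a polarization
`T`: `b (σ g σ⁻¹) = T (-(b g)ᵀ) T⁻¹` up to a coboundary. -/
def IsFixed {Γ G : Type} [Group Γ] [Group G] (ι : G →* Γ) (H : Subgroup G) {κ : Type} [Field κ]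
    {m : ℕ} (r : G →* GL (Fin m) κ) (σ : Γ) (Ψ : Γ →* κˣ)
    (b : G → Matrix (Fin m) (Fin m) κ) : Prop :=
  ∃ (T : GL (Fin m) κ) (y : Matrix (Fin m) (Fin m) κ), IsPolarization ι σ Ψ r T ∧
    ∀ g ∈ H, ∀ h ∈ H, ι h = σ * ι g * σ⁻¹ → b h = T.1 * (-(b g)ᵀ + (y - coad r g y)) * T⁻¹.1

/-- There is no nonzero class in `H ^ 1 (H, ad r)`, trivial on `I`, which is fixed by the action
of `σ` that is given by the polarization. -/
def NoFixedClass {Γ G : Type} [Group Γ] [Group G] [TopologicalSpace G] (ι : G →* Γ)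
    (H : Subgroup G) (I : Set G) {κ : Type} [Field κ] {m : ℕ} (r : G →* GL (Fin m) κ) (σ : Γ)
    (Ψ : Γ →* κˣ) : Prop :=
  ∀ b : G → Matrix (Fin m) (Fin m) κ, IsCocycle H I r b → IsFixed ι H r σ Ψ b →
    IsCoboundary H r b

/-- `R₂` is isomorphic to `R₁ ⊗ θ` for a character `θ` with values in the units of `A`, trivial on
`H`. -/
def IsTwist {G : Type} [Group G] (H : Subgroup G) {A : Type} [CommRing A] {m : ℕ}
    (R₁ R₂ : G →* GL (Fin m) A) : Prop :=
  ∃ (Y : GL (Fin m) A) (θ : G →* Aˣ), (∀ g ∈ H, θ g = 1) ∧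
    ∀ g, (R₂ g).1 = (θ g).1 • (Y * R₁ g * Y⁻¹).1

open Pool.Agent.U419.UG in
theorem pol_eq {Γ G : Type} [Group Γ] [Group G] {ι : G →* Γ} {B : Type} [CommRing B]
    {m : ℕ} {σ : Γ} {Ψ : Γ →* Bˣ} {R : G →* GL (Fin m) B} {T : GL (Fin m) B} :
    IsPolarization ι σ Ψ R T ↔ ∀ g h : G, ι h = σ * ι g * σ⁻¹ →
      scal (Ψ (ι g)) * R h = T * con (R g) * T⁻¹ := by
  constructor
  · intro hT g h hh
    apply Units.ext
    rw [Units.val_mul, scal_val, smul_mul_assoc, one_mul]
    exact hT g h hh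
  · intro hT g h hh
    have h1 := congrArg Units.val (hT g h hh)
    rw [Units.val_mul, scal_val, smul_mul_assoc, one_mul] at h1
    exact h1

open Pool.Agent.U419.UG in
/-- if `R` is polarized with respect to `c`, then it is polarized with respect to `c h` -/
theorem pol_mul {Γ G : Type} [Group Γ] [Group G] {ι : G →* Γ}
    {B : Type} [CommRing B] {m : ℕ} {c : Γ} {Ψ : Γ →* Bˣ} {R : G →* GL (Fin m) B}
    {T : GL (Fin m) B} (hT : IsPolarization ι c Ψ R T) (h : G) :
    IsPolarization ι (c * ι h) Ψ R (T * con (R h)) := by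
  rw [pol_eq] at hT ⊢
  intro g g' hg
  have h1 := hT (h * g * h⁻¹) g' (by
    rw [hg, map_mul, map_mul, map_inv]
    group)
  have h2 : Ψ (ι (h * g * h⁻¹)) = Ψ (ι g) := by
    rw [map_mul, map_mul, map_inv, map_mul, map_mul, map_inv,
      mul_comm (Ψ (ι h)), mul_inv_cancel_right]
  rw [h2] at h1
  rw [h1, map_mul, map_mul, map_mul, map_mul, map_inv, map_inv]
  group

/-- the abstract form -/
theorem main {Γ G : Type} [Group Γ] [Group G] [TopologicalSpace G] [IsTopologicalGroup G]
    (ι : G →* Γ) (H : Subgroup G) [hH : H.Normal] (hHo : IsOpen (H : Set G)) (hfi : Finite (G ⧸ H))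
    (I : Set G) {A : Type}
    [CommRing A] [IsLocalRing A] [IsNoetherianRing A] [TopologicalSpace A] {m : ℕ} (hm : 0 < m)
    (R₁ R₂ : G →* GL (Fin m) A) (h₁ : IsAdmissible H I R₁) (h₂ : IsAdmissible H I R₂)
    (c : Γ) (Ψ₁ Ψ₂ : Γ →* Aˣ) (hp₁ : ∃ T, IsPolarization ι c Ψ₁ R₁ T)
    (hp₂ : ∃ T, IsPolarization ι c Ψ₂ R₂ T) (hΨ : ∀ g ∈ H, Ψ₁ (ι g) = Ψ₂ (ι g))
    (hirr : IrreducibleOn H (reduction R₁))
    (hiso : IsomorphicOn H (reduction R₁) (reduction R₂)) (σ : Γ) (h₀ : G) (hσ : c * ι h₀ = σ)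
    (hs : ∀ g : H, ∃ h : H, ι h = σ * ι g * σ⁻¹) (hι : Function.Injective ι)
    (hno : NoFixedClass ι H I (reduction R₁) σ (reductionChar Ψ₁)) :
    IsTwist H R₁ R₂ ∧ ((Set.range R₁).Finite → (Set.range R₂).Finite) := by
  classical
  -- polarizations for `σ`
  obtain ⟨T₁, hT₁⟩ := hp₁
  obtain ⟨T₂, hT₂⟩ := hp₂
  have hP₁ := pol_mul hT₁ h₀
  have hP₂ := pol_mul hT₂ h₀
  rw [hσ] at hP₁ hP₂
  generalize hJ₁ : T₁ * Pool.Agent.U419.UG.con (R₁ h₀) = J₁ at hP₁
  generalize hJ₂ : T₂ * Pool.Agent.U419.UG.con (R₂ h₀) = J₂ at hP₂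
  have hQ₁ := pol_eq.1 hP₁
  have hQ₂ := pol_eq.1 hP₂
  choose s hs using hs
  -- lift the isomorphism of the reductions
  obtain ⟨X₀, hX₀⟩ := hiso
  obtain ⟨M, hM⟩ := Pool.Agent.U419.UG.exists_lift (A := A) (X₀ : Matrix (Fin m) (Fin m) _)
  have hMu : IsUnit M := by
    rw [Matrix.isUnit_iff_isUnit_det]
    by_contra hcon
    have h1 : residue A M.det = 0 := (residue_eq_zero_iff _).2 ((mem_maximalIdeal _).2 hcon)
    rw [RingHom.map_det] at h1
    have h2 : (residue A).mapMatrix M = (X₀ : Matrix (Fin m) (Fin m) _) := hM.symm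
    rw [h2] at h1
    exact ((Matrix.isUnit_iff_isUnit_det _).1 X₀.isUnit).ne_zero h1
  let W : GL (Fin m) A := hMu.unit
  have hW : Matrix.GeneralLinearGroup.map (residue A) W = X₀ := by
    apply Units.ext
    exact hM.symm
  let R₃ : G →* GL (Fin m) A := (MulAut.conj W⁻¹).toMonoidHom.comp R₂
  have hR₃ : ∀ g, R₃ g = W⁻¹ * R₂ g * W := fun g => by
    change W⁻¹ * R₂ g * W⁻¹⁻¹ = _
    rw [inv_inv]
  have ho₁ := fun k => Pool.Agent.U419.UG.open_ker h₁.adic R₁ h₁.continuous k
  have ho₃ : ∀ k, IsOpen (((Pool.Agent.U419.UG.Rk A m k).comp R₃).ker : Set G) := by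
    intro k
    refine Subgroup.isOpen_mono ?_ (Pool.Agent.U419.UG.open_ker h₂.adic R₂ h₂.continuous k)
    intro g hg
    have h1 : Pool.Agent.U419.UG.Rk A m k (R₂ g) = 1 := hg
    change Pool.Agent.U419.UG.Rk A m k (R₃ g) = 1
    rw [hR₃, map_mul, map_mul, h1, mul_one, ← map_mul, inv_mul_cancel, map_one]
  have hcong : ∀ g : H, Pool.Agent.U419.UG.bar (R₃ g) = Pool.Agent.U419.UG.bar (R₁ g) := by
    intro g
    have h1 := hX₀ g g.2
    have h2 : Matrix.GeneralLinearGroup.map (residue A) (R₃ g) =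
        Matrix.GeneralLinearGroup.map (residue A) (R₁ g) := by
      rw [hR₃, map_mul, map_mul, map_inv, hW]
      have h3 : Matrix.GeneralLinearGroup.map (residue A) (R₂ g) =
          X₀ * Matrix.GeneralLinearGroup.map (residue A) (R₁ g) * X₀⁻¹ := h1
      rw [h3]
      group
    exact congrArg Units.val h2
  have hscal : ∀ u : Aˣ, (Pool.Agent.U419.UG.scal u : GL (Fin m) A)⁻¹ =
      Pool.Agent.U419.UG.scal u⁻¹ := fun u =>
    (map_inv (Units.map (Matrix.scalar (Fin m) : A →+* _).toMonoidHom) u).symm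
  have e₁ : ∀ g : H, R₁ (s g) = Pool.Agent.U419.UG.scal (Ψ₁ (ι g))⁻¹ *
      (J₁ * Pool.Agent.U419.UG.con (R₁ g) * J₁⁻¹) := by
    intro g
    rw [← hscal, ← hQ₁ g (s g) (hs g), inv_mul_cancel_left]
  have e₃ : ∀ g : H, R₃ (s g) = Pool.Agent.U419.UG.scal (Ψ₁ (ι g))⁻¹ *
      ((W⁻¹ * J₂ * Pool.Agent.U419.UG.con W) * Pool.Agent.U419.UG.con (R₃ g) *
        (W⁻¹ * J₂ * Pool.Agent.U419.UG.con W)⁻¹) := by
    intro g
    have h1 : Ψ₁ (ι g) = Ψ₂ (ι g) := hΨ _ g.2
    have h2 : R₂ (s g) = Pool.Agent.U419.UG.scal (Ψ₂ (ι g))⁻¹ *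
        (J₂ * Pool.Agent.U419.UG.con (R₂ g) * J₂⁻¹) := by
      rw [← hscal, ← hQ₂ g (s g) (hs g), inv_mul_cancel_left]
    have h3 : R₂ g = W * R₃ g * W⁻¹ := by rw [hR₃]; group
    rw [hR₃, h2, h1, h3, map_mul, map_mul, map_inv, ← mul_assoc W⁻¹,
      ← Pool.Agent.U419.UG.scal_comm _ W⁻¹, mul_assoc (Pool.Agent.U419.UG.scal _),
      mul_assoc (Pool.Agent.U419.UG.scal _)]
    congr 1
    group
  have hirr' : Submodule.span (ResidueField A)
      (Set.range fun g : H => Pool.Agent.U419.UG.bar (R₁ g)) = ⊤ := by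
    rw [← top_le_iff, ← hirr]
    apply Submodule.span_mono
    rintro _ ⟨g, hg, rfl⟩
    exact ⟨⟨g, hg⟩, rfl⟩
  obtain ⟨Y, θ, hθ, hY⟩ := Pool.Agent.U419.UG.unique_pol (H := H) hm I
    R₁ R₃ ho₁ ho₃ (fun τ hτ => h₁.unramified τ τ.2 hτ) (fun τ hτ => by
      rw [hR₃, h₂.unramified τ τ.2 hτ, mul_one, inv_mul_cancel]) hirr' s
    (fun g => (Ψ₁ (ι g))⁻¹) J₁ (W⁻¹ * J₂ * Pool.Agent.U419.UG.con W) e₁ e₃ (by
      rintro ⟨b, hb1, ⟨U, hU, hb2⟩, hb3, ⟨y, hb4⟩, hb5⟩
      apply hb5
      let b' : G → Matrix (Fin m) (Fin m) (ResidueField A) := fun g =>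
        if hg : g ∈ H then b ⟨g, hg⟩ else 0
      have hb' : ∀ g : H, b' g = b g := fun g => dif_pos g.2
      have hc' : IsCocycle H I (reduction R₁) b' := by
        refine ⟨?_, ⟨U.map H.subtype, ?_, ?_⟩, ?_⟩
        · intro g hg h hh
          have h1 := hb1 ⟨g, hg⟩ ⟨h, hh⟩
          rw [← hb', ← hb', ← hb'] at h1
          exact h1
        · exact hHo.isOpenMap_subtype_val _ hU
        · rintro _ ⟨g, hg, rfl⟩ _
          exact (hb' g).trans (hb2 g hg)
        · intro τ hτ hτI
          exact (hb' ⟨τ, hτ⟩).trans (hb3 ⟨τ, hτ⟩ hτI)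
      obtain ⟨x, hx⟩ := hno b' hc'
        ⟨Matrix.GeneralLinearGroup.map (residue A) J₁, y, by
          rw [pol_eq]
          intro g h hh
          have h1 := congrArg (Matrix.GeneralLinearGroup.map (residue A)) (hQ₁ g h hh)
          rw [map_mul, map_mul, map_mul, map_inv, Pool.Agent.U419.UG.con_map] at h1
          refine Eq.trans ?_ h1
          congr 1
          apply Units.ext
          rw [Pool.Agent.U419.UG.scal_val]
          change _ = (residue A).mapMatrix ((Pool.Agent.U419.UG.scal (Ψ₁ (ι g)) :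
            GL (Fin m) A) : Matrix (Fin m) (Fin m) A)
          rw [Pool.Agent.U419.UG.scal_val]
          ext i j
          change residue A (Ψ₁ (ι g) : A) * (1 : Matrix (Fin m) (Fin m) (ResidueField A)) i j =
            residue A ((Ψ₁ (ι g) : A) * (1 : Matrix (Fin m) (Fin m) A) i j)
          rw [map_mul, Matrix.one_apply, Matrix.one_apply]
          split_ifs
          · rw [map_one]
          · rw [map_zero], by
          intro g hg h hh hgh
          have h1 : h = s ⟨g, hg⟩ := by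
            apply hι
            rw [hgh, hs ⟨g, hg⟩]
          have h2 := hb4 ⟨g, hg⟩
          rw [← hb', ← hb', one_smul, add_sub_assoc, ← h1] at h2
          exact h2⟩
      refine ⟨x, fun g => ?_⟩
      rw [← hb']
      exact hx g g.2) hcong
  have hfin : ∀ g, (R₂ g : Matrix (Fin m) (Fin m) A) =
      (θ g : A) • ((W * Y * R₁ g * (W * Y)⁻¹ : GL (Fin m) A) : Matrix (Fin m) (Fin m) A) := by
    intro g
    have h1 : R₂ g = W * R₃ g * W⁻¹ := by rw [hR₃]; group
    have h2 : W * Y * R₁ g * (W * Y)⁻¹ = W * (Y * R₁ g * Y⁻¹) * W⁻¹ := by group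
    rw [h1, h2, Units.val_mul (W * R₃ g), Units.val_mul W, hY, mul_smul_comm, smul_mul_assoc,
      Units.val_mul (W * (Y * R₁ g * Y⁻¹)), Units.val_mul W]
  refine ⟨⟨W * Y, θ, fun g hg => hθ ⟨g, hg⟩, hfin⟩, fun hR => ?_⟩
  -- finite image
  have hle : H ≤ θ.ker := fun g hg => hθ ⟨g, hg⟩
  have hθf : (Set.range θ).Finite := by
    refine (Set.finite_range (QuotientGroup.lift H θ hle)).subset ?_
    rintro _ ⟨g, rfl⟩
    exact ⟨(g : G ⧸ H), rfl⟩
  have h3 := (hθf.prod hR).image fun x : Aˣ × GL (Fin m) A =>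
    (x.1 : A) • ((W * Y * x.2 * (W * Y)⁻¹ : GL (Fin m) A) : Matrix (Fin m) (Fin m) A)
  refine Set.Finite.of_finite_image (f := Units.val) (h3.subset ?_) Units.val_injective.injOn
  rintro _ ⟨_, ⟨g, rfl⟩, rfl⟩
  exact ⟨(θ g, R₁ g), ⟨⟨g, rfl⟩, ⟨g, rfl⟩⟩, (hfin g).symm⟩

theorem normal_fixing {F : Type} [Field F] (K : IntermediateField F (Om F)) [IsGalois F K] :
    K.fixingSubgroup.Normal := by
  rw [← IntermediateField.restrictNormalHom_ker]
  infer_instance

theorem result (F : Type) [Field F] [NumberField F] (K L : IntermediateField F (Om F))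
    [IsGalois F K] [IsGalois F L] [FiniteDimensional F L] (hKL : K ≤ L) (S : Set ℕ) (A : Type)
    [CommRing A] [IsLocalRing A] [IsNoetherianRing A] [TopologicalSpace A] (m : ℕ) (hm : 0 < m)
    (R₁ R₂ : GK K →* GL (Fin m) A) (h₁ : IsAdmissible (Over K L) (Inertia K S) R₁)
    (h₂ : IsAdmissible (Over K L) (Inertia K S) R₂) (c : GF F) (Ψ₁ Ψ₂ : GF F →* Aˣ)
    (hp₁ : ∃ T, IsPolarization (incl K) c Ψ₁ R₁ T)
    (hp₂ : ∃ T, IsPolarization (incl K) c Ψ₂ R₂ T)
    (hΨ : ∀ g ∈ Over K L, Ψ₁ (incl K g) = Ψ₂ (incl K g))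
    (hirr : IrreducibleOn (Over K L) (reduction R₁))
    (hiso : IsomorphicOn (Over K L) (reduction R₁) (reduction R₂)) (σ : GF F) (h₀ : GK K)
    (hσ : c * incl K h₀ = σ)
    (hno : NoFixedClass (incl K) (Over K L) (Inertia K S) (reduction R₁) σ (reductionChar Ψ₁)) :
    IsTwist (Over K L) R₁ R₂ ∧ ((Set.range R₁).Finite → (Set.range R₂).Finite) := by
  have hN := normal_fixing K
  have hNL := normal_fixing L
  have hNHL : (L.fixingSubgroup.subgroupOf K.fixingSubgroup).Normal := inferInstance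
  have : FiniteDimensional F K := FiniteDimensional.of_injective
    (IntermediateField.inclusion hKL).toLinearMap (IntermediateField.inclusion hKL).injective
  have hopen : IsOpen ((L.fixingSubgroup.subgroupOf K.fixingSubgroup :
      Subgroup K.fixingSubgroup) : Set K.fixingSubgroup) :=
    (IntermediateField.fixingSubgroup_isOpen L).preimage continuous_subtype_val
  have hclosed : IsClosed (K.fixingSubgroup : Set Gal(AlgebraicClosure F/F)) :=
    IntermediateField.fixingSubgroup_isClosed K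
  have hcompact : CompactSpace K.fixingSubgroup := isCompact_iff_compactSpace.1 hclosed.isCompact
  have hfi : Finite (K.fixingSubgroup ⧸ L.fixingSubgroup.subgroupOf K.fixingSubgroup) :=
    Subgroup.quotient_finite_of_isOpen _ hopen
  have hopen' : IsOpen ((Over K L : Subgroup (GK K)) : Set (GK K)) := hopen
  have hfi' : Finite (GK K ⧸ Over K L) := hfi
  have hNHL' : (Over K L).Normal := hNHL
  have hinj : Function.Injective (incl K) := Subtype.val_injective
  refine main (incl K) (Over K L) hopen' hfi' (Inertia K S) hm R₁ R₂ h₁ h₂ c Ψ₁ Ψ₂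
    hp₁ hp₂ hΨ hirr hiso σ h₀ hσ ?_ hinj hno
  rintro ⟨g, hg⟩
  have hg' : (g : K.fixingSubgroup).1 ∈ L.fixingSubgroup := hg
  let σ' : Gal(AlgebraicClosure F/F) := σ
  let h : K.fixingSubgroup := ⟨σ' * (g : K.fixingSubgroup).1 * σ'⁻¹,
    hN.conj_mem _ (g : K.fixingSubgroup).2 _⟩
  have hh : h ∈ L.fixingSubgroup.subgroupOf K.fixingSubgroup := hNL.conj_mem _ hg' _
  exact ⟨⟨h, hh⟩, rfl⟩

end Pool.Agent.Results.MP_adf543_nt.PolarizedLifts
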